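import Mathlib
import Pool.Agent.R990.MG.Dif

/-!
# The dependence of the field on one link
-/

open MeasureTheory Matrix Filter
open scoped Matrix.Norms.Frobenius Topology
open Pool.Agent.H906R3.YM hiding Pl
open Pool.Agent.W793.YM Pool.Agent.TH618.YM Pool.Agent.Y14
open Pool.Agent.R990 (nm)

namespace Pool.Agent.MG990.L681

set_option linter.unusedSectionVars false
set_option linter.unusedVariables false

noncomputable section

section word

variable {d : ℕ} {A : Type*} [AddCommGroup A] [DecidableEq A] {u : Fin d → A}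
  {G : Type*} [Group G] [TopologicalSpace G] [IsTopologicalGroup G] [CompactSpace G]
  [SecondCountableTopology G] [MeasurableSpace G] [BorelSpace G] {N n : ℕ} {L : LD G N n}

/-- a transport after a change of one link -/
lemma tp_lip (U : A × Fin d → G) (f : A × Fin d) (a : Fin n) (s : ℝ) (x : A)
    (w : List (Fin d)) :
    dd L (tp u (Function.update U f (L.ex a s * U f)) x w) (tp u U x w) ≤
      |s| * ((lk u x w).count f : ℕ) := by
  induction w generalizing x with
  | nil =>
    rw [tp_nil, tp_nil, dd_self]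
    positivity
  | cons i w ih =>
    rw [tp_cons, tp_cons, lk, List.count_cons]
    obtain ⟨g', hg'⟩ : ∃ g', g' = Function.update U f (L.ex a s * U f) (x, i) := ⟨_, rfl⟩
    obtain ⟨h', hh'⟩ : ∃ h', h' = tp u (Function.update U f (L.ex a s * U f)) (x + u i) w :=
      ⟨_, rfl⟩
    have ih' := ih (x + u i)
    rw [← hh'] at ih' ⊢
    rw [← hg']
    refine (dd_tri _ (g' * tp u U (x + u i) w) _).trans ?_
    rw [dd_lmul, dd_rmul]
    have h1 : dd L g' (U (x, i)) ≤ |s| * ((if (x, i) == f then 1 else 0 : ℕ) : ℝ) := by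
      by_cases h : (x, i) = f
      · subst h
        rw [hg', Function.update_self]
        have h2 : dd L (L.ex a s * U (x, i)) (U (x, i)) = dv L (L.ex a s) := by
          rw [dd_dv]
          congr 1
          group
        rw [h2]
        simpa using dv_ex (L := L) a s
      · rw [hg', Function.update_of_ne h, dd_self]
        positivity
    push_cast at h1 ⊢
    rw [mul_add]
    linarith

end word

section term

variable {G : Type*} [Group G] [TopologicalSpace G] [IsTopologicalGroup G] [CompactSpace G]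
  [SecondCountableTopology G] [MeasurableSpace G] [BorelSpace G] {N n : ℕ} {L : LD G N n}

lemma norm_ctr (g : G) (A : Mat N) : ‖A * (L.rho g)ᴴ‖ = ‖A‖ := by
  rw [← L.rho_inv, norm_rmul]

/-- the middle part -/
def WM (L : LD G N n) (R M V : G) : Mat N := L.rho R - L.rho M * (L.rho V)ᴴ

lemma WM_lip (R M V R' M' V' : G) :
    ‖WM L R' M' V' - WM L R M V‖ ≤ dd L R' R + dd L M' M + dd L V' V := by
  have e1 : WM L R' M' V' - WM L R M V = (L.rho R' - L.rho R) -
      ((L.rho M' - L.rho M) * (L.rho V')ᴴ + L.rho M * (L.rho V' - L.rho V)ᴴ) := by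
    unfold WM
    rw [conjTranspose_sub, sub_mul, mul_sub]
    abel
  rw [e1]
  refine (norm_sub_le _ _).trans ?_
  have h1 : ‖(L.rho M' - L.rho M) * (L.rho V')ᴴ + L.rho M * (L.rho V' - L.rho V)ᴴ‖ ≤
      dd L M' M + dd L V' V := by
    refine (norm_add_le _ _).trans ?_
    rw [norm_ctr, norm_lmul, norm_ct]
    exact le_rfl
  have h2 : ‖L.rho R' - L.rho R‖ = dd L R' R := rfl
  linarith

/-- the difference of two transports -/
def FF (L : LD G N n) (A B R M V : G) : Mat N :=
  L.rho (A * R) * (L.rho B)ᴴ - L.rho (A * M) * (L.rho (B * V))ᴴ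

lemma FF_eq (A B R M V : G) : FF L A B R M V = L.rho A * WM L R M V * (L.rho B)ᴴ := by
  unfold FF WM
  simp only [map_mul, conjTranspose_mul, mul_sub, sub_mul, Matrix.mul_assoc]

lemma norm_FF (A B R M V : G) : ‖FF L A B R M V‖ = ‖WM L R M V‖ := by
  rw [FF_eq, norm_ctr, norm_lmul]

lemma FF_lip (A B R M V A' B' R' M' V' : G) :
    ‖FF L A' B' R' M' V' - FF L A B R M V‖ ≤ (dd L A' A + dd L B' B) * ‖WM L R M V‖ +
      (dd L R' R + dd L M' M + dd L V' V) := by
  have e1 : FF L A' B' R' M' V' - FF L A B R M V =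
      (L.rho A' - L.rho A) * WM L R M V * (L.rho B)ᴴ +
      L.rho A' * (WM L R M V * (L.rho B' - L.rho B)ᴴ) +
      L.rho A' * (WM L R' M' V' - WM L R M V) * (L.rho B')ᴴ := by
    rw [FF_eq, FF_eq, conjTranspose_sub]
    simp only [mul_sub, sub_mul, Matrix.mul_assoc]
    abel
  rw [e1]
  have h1 : ‖(L.rho A' - L.rho A) * WM L R M V * (L.rho B)ᴴ‖ ≤ dd L A' A * ‖WM L R M V‖ := by
    rw [norm_ctr]
    exact norm_mul_le _ _
  have h2 : ‖L.rho A' * (WM L R M V * (L.rho B' - L.rho B)ᴴ)‖ ≤ dd L B' B * ‖WM L R M V‖ := by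
    rw [norm_lmul]
    refine (norm_mul_le _ _).trans ?_
    rw [norm_ct, mul_comm]
    exact le_rfl
  have h3 : ‖L.rho A' * (WM L R' M' V' - WM L R M V) * (L.rho B')ᴴ‖ ≤
      dd L R' R + dd L M' M + dd L V' V := by
    rw [norm_ctr, norm_lmul]
    exact WM_lip _ _ _ _ _ _
  refine (norm_add_le _ _).trans ?_
  have h4 := norm_add_le ((L.rho A' - L.rho A) * WM L R M V * (L.rho B)ᴴ)
    (L.rho A' * (WM L R M V * (L.rho B' - L.rho B)ᴴ))
  rw [add_mul]
  linarith

end term

end

end Pool.Agent.MG990.L681
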