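import Mathlib
import Pool.Agent.N681.LG.Lip

/-!
# The gradient of the field
-/

open MeasureTheory Matrix Filter
open scoped Matrix.Norms.Frobenius Topology
open Pool.Agent.H906R3.YM hiding Pl
open Pool.Agent.W793.YM Pool.Agent.TH618.YM Pool.Agent.Y14
open Pool.Agent.R990 (nm)

namespace Pool.Agent.MG990.L681

set_option linter.unusedSectionVars false
set_option linter.unusedVariables false

noncomputable section

lemma nm_zero {E ι : Type*} [DecidableEq E] {O : Finset ι} {A : ι → List E} {f : E}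
    (h : ∀ o ∈ O, f ∉ A o) : nm O A f = 0 := by
  unfold nm
  exact Finset.card_eq_zero.2 (Finset.filter_eq_empty_iff.2 fun o ho => h o ho)

section gen

variable {e q : ℕ} {A : Type*} [AddCommGroup A] (u : Fin (e + 3) → A)
  {G : Type*} [Group G] [TopologicalSpace G] [IsTopologicalGroup G] [CompactSpace G]
  [SecondCountableTopology G] [MeasurableSpace G] [BorelSpace G] {N n : ℕ} (L : LD G N n)

/-- one term of the field -/
def tm (r : ℕ) (U : A × Fin (e + 3) → G) (x : A) (o : OO e q) : Mat N :=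
  pp u L U x (x + (2 * q) • u 0) (PA r o) (PB r o) -
    pp u L U x (x + (2 * q) • u 0) (QA r o) (QB r o)

variable {u L}

lemma phi_tm (r : ℕ) (U : A × Fin (e + 3) → G) (x : A) : phi u L r q U x =
    ((Fintype.card (OO e q) : ℝ))⁻¹ • ∑ o : OO e q, tm u L r U x o := rfl

lemma ntm_gauge {r : ℕ} (hqr : q = 2 ^ r) (γ : A → G) (U : A × Fin (e + 3) → G) (x : A)
    (o : OO e q) : ‖tm u L r (fun f => γ f.1 * U f * (γ (f.1 + u f.2))⁻¹) x o‖ =
      ‖tm u L r U x o‖ := by
  unfold tm
  rw [pp_gauge γ U (by rw [dsp_P u hqr, add_assoc]), pp_gauge γ U (by rw [dsp_Q u hqr, add_assoc]),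
    ← sub_mul, ← mul_sub, norm_ctr, norm_lmul]

lemma tm_map {r : ℕ} {A' : Type*} [AddCommGroup A'] {u' : Fin (e + 3) → A'}
    {U : A × Fin (e + 3) → G}
    {U' : A' × Fin (e + 3) → G} (f : A →+ A') (hu : ∀ i, f (u i) = u' i)
    (hU : ∀ e, U e = U' (f e.1, e.2)) (x : A) (o : OO e q) :
    tm u L r U x o = tm u' L r U' (f x) o := by
  unfold tm pp
  rw [tp_map f hu hU, tp_map f hu hU, tp_map f hu hU, tp_map f hu hU, map_add, map_nsmul, hu]

lemma tm_shift {r : ℕ} (U : A × Fin (e + 3) → G) (z x : A) (o : OO e q) :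
    tm u L r (fun f => U (f.1 + z, f.2)) x o = tm u L r U (x + z) o := by
  unfold tm pp
  rw [tp_shift, tp_shift, tp_shift, tp_shift, add_right_comm]

lemma tm_cont (r : ℕ) (x : A) (o : OO e q) :
    Continuous fun U : A × Fin (e + 3) → G => tm u L r U x o := by
  have h0 : ∀ (w w' : List (Fin (e + 3))), Continuous fun U : A × Fin (e + 3) → G =>
      pp u L U x (x + (2 * q) • u 0) w w' := fun w w' =>
    (L.cont.comp (tp_cont x w)).mul
      ((ctL N).continuous.comp (L.cont.comp (tp_cont (x + (2 * q) • u 0) w')))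
  exact (h0 _ _).sub (h0 _ _)

lemma phi_cont' (r : ℕ) (x : A) :
    Continuous fun U : A × Fin (e + 3) → G => phi u L r q U x := by
  have h1 : Continuous fun U : A × Fin (e + 3) → G => ∑ o : OO e q, tm u L r U x o :=
    continuous_finsetSum _ fun o _ => tm_cont r x o
  exact h1.const_smul ((Fintype.card (OO e q) : ℝ))⁻¹

lemma tm_congr {r : ℕ} (hqr : q = 2 ^ r) {U U' : A × Fin (e + 3) → G} {x : A}
    (h : ∀ w1 : List (Fin (e + 3)), (∀ j, w1.count j ≤ 7 * q) →
      w1.count (Fin.last (e + 2)) = 0 → ∀ i, i ≠ Fin.last (e + 2) →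
      U (x + dsp u w1, i) = U' (x + dsp u w1, i)) (o : OO e q) :
    tm u L r U x o = tm u L r U' x o := by
  have key : ∀ w : List (Fin (e + 3)), (∀ j, w.count j ≤ 5 * q) →
      w.count (Fin.last (e + 2)) = 0 → tp u U x w = tp u U' x w ∧
      tp u U (x + (2 * q) • u 0) w = tp u U' (x + (2 * q) • u 0) w := by
    intro w hw hl
    have key1 : ∀ c : List (Fin (e + 3)), (∀ j, c.count j ≤ 2 * q) →
        c.count (Fin.last (e + 2)) = 0 →
        tp u U (x + dsp u c) w = tp u U' (x + dsp u c) w := by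
      intro c hc hcl
      refine tp_congr fun f hf => ?_
      obtain ⟨w1, w2, h1, h2⟩ := mem_lk hf
      have h3 : f = (x + dsp u (c ++ w1), f.2) := Prod.ext (by
        rw [h2, dsp_append, add_assoc]) rfl
      rw [h3]
      have h4 : ∀ j, w1.count j ≤ w.count j := fun j => by
        rw [h1, List.count_append]; omega
      refine h (c ++ w1) (fun j => ?_) ?_ f.2 (not_last hl (by rw [h1]; simp))
      · have := hw j
        have := h4 j
        have := hc j
        rw [List.count_append]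
        omega
      · have := h4 (Fin.last (e + 2))
        rw [List.count_append]
        omega
    refine ⟨?_, ?_⟩
    · have h1 := key1 [] (fun j => by simp) (by simp)
      rwa [dsp_nil, add_zero] at h1
    · have h1 := key1 (Zq e q) (fun j => by rw [count_Zq]; split_ifs <;> omega) (by
        rw [count_Zq, if_neg (Ne.symm last_ne0)])
      unfold Zq at h1
      rwa [dsp_rep] at h1
  unfold tm pp
  rw [(key _ (fun j => (cPA_le hqr o j).1) (cPA_last hqr o).1).1,
    (key _ (fun j => (cPA_le hqr o j).2) (cPA_last hqr o).2).1,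
    (key _ (fun j => (cPB_le hqr o j).1) (cPB_last hqr o).1).2,
    (key _ (fun j => (cPB_le hqr o j).2) (cPB_last hqr o).2).2]

end gen

section tor

variable {G : Type*} [Group G] [TopologicalSpace G] [IsTopologicalGroup G] [CompactSpace G]
  [SecondCountableTopology G] [MeasurableSpace G] [BorelSpace G]
  {N n : ℕ} {L : LD G N n} {e m : ℕ} [NeZero m] {q r : ℕ}

lemma tm_FF (hqr : q = 2 ^ r) (U : Ed (e + 3) (2 * m) → G) (o : OO e q) :
    tm eT L r U (y0 e m) o = FF L (tp eT U (y0 e m) (AA r o.1 o.2.2.2))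
      (tp eT U (y1 e m q) (AA r o.2.1 o.2.2.2)) (tp eT U (yR m o) (List.replicate (rr o) 0))
      (tp eT U (yR m o) (List.replicate (rv o) 1 ++ List.replicate (rr o) 0))
      (tp eT U (yV m o) (List.replicate (rv o) 1)) := by
  have h1 : (y0 e m + (2 * q) • eT 0 : Fin (e + 3) → ZMod (2 * m)) = y1 e m q := rfl
  unfold tm pp FF
  rw [h1]
  unfold PA PB QA QB
  rw [tp_append (y0 e m) (AA r o.1 o.2.2.2) (List.replicate (rr o) 0), bA hqr,
    tp_append (y0 e m) (AA r o.1 o.2.2.2)
      (List.replicate (rv o) 1 ++ List.replicate (rr o) 0), bA hqr,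
    tp_append (y1 e m q) (AA r o.2.1 o.2.2.2) (List.replicate (rv o) 1), bV hqr]

lemma norm_WM_rect (U : Ed (e + 3) (2 * m) → G) (o : OO e q) :
    ‖WM L (tp eT U (yR m o) (List.replicate (rr o) 0))
      (tp eT U (yR m o) (List.replicate (rv o) 1 ++ List.replicate (rr o) 0))
      (tp eT U (yV m o) (List.replicate (rv o) 1))‖ =
      dv L (rect U (yR m o) 0 1 (rr o) (rv o)) := by
  have eV : yV m o = yR m o + dsp eT (List.replicate (rr o) 0) := by
    unfold yV yR
    rw [dsp_append]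
    exact (add_assoc _ _ _).symm
  obtain ⟨g, hg⟩ : ∃ g, g = tp eT U (yV m o) (List.replicate (rv o) 1) := ⟨_, rfl⟩
  have e1 := L.unit' g
  unfold WM
  rw [← hg, ← norm_rmul (L := L) g]
  have e2 : (L.rho (tp eT U (yR m o) (List.replicate (rr o) 0)) -
      L.rho (tp eT U (yR m o) (List.replicate (rv o) 1 ++ List.replicate (rr o) 0)) *
      (L.rho g)ᴴ) * L.rho g =
      L.rho (tp eT U (yR m o) (List.replicate (rr o) 0 ++ List.replicate (rv o) 1)) -
      L.rho (tp eT U (yR m o) (List.replicate (rv o) 1 ++ List.replicate (rr o) 0)) := by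
    rw [sub_mul, Matrix.mul_assoc, e1, mul_one, tp_append (yR m o) (List.replicate (rr o) 0)
      (List.replicate (rv o) 1), ← eV, ← hg, map_mul]
  rw [e2]
  exact dd_swap U (yR m o) 0 1 (rr o) (rv o)

lemma ntm_rect (hqr : q = 2 ^ r) (U : Ed (e + 3) (2 * m) → G) (o : OO e q) :
    ‖tm eT L r U (y0 e m) o‖ = dv L (rect U (yR m o) 0 1 (rr o) (rv o)) := by
  rw [tm_FF hqr, norm_FF, norm_WM_rect]

/-- the change of one term -/
lemma tm_lip (hqr : q = 2 ^ r) (U : Ed (e + 3) (2 * m) → G) (f : Ed (e + 3) (2 * m))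
    (a : Fin n) (s : ℝ) (o : OO e q) :
    ‖tm eT L r (Function.update U f (L.ex a s * U f)) (y0 e m) o - tm eT L r U (y0 e m) o‖ ≤
      |s| * ((((lA m r o ++ lB m r o).count f : ℕ) : ℝ) * ‖tm eT L r U (y0 e m) o‖ +
        (((lR m o ++ (lM m o ++ lV m o)).count f : ℕ) : ℝ)) := by
  obtain ⟨U', hU'⟩ : ∃ U', U' = Function.update U f (L.ex a s * U f) := ⟨_, rfl⟩
  have hl : ∀ (x : Fin (e + 3) → ZMod (2 * m)) (w : List (Fin (e + 3))),
      dd L (tp eT U' x w) (tp eT U x w) ≤ |s| * ((lk eT x w).count f : ℕ) := fun x w => by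
    rw [hU']
    exact tp_lip U f a s x w
  rw [← hU', tm_FF hqr U', tm_FF hqr U]
  refine (FF_lip _ _ _ _ _ _ _ _ _ _).trans ?_
  rw [norm_FF]
  have hM : lk eT (yR m o) (List.replicate (rv o) 1 ++ List.replicate (rr o) 0) = lM m o := by
    unfold lM
    rw [lk_append, bS hqr]
  have a1 := hl (y0 e m) (AA r o.1 o.2.2.2)
  have a2 := hl (y1 e m q) (AA r o.2.1 o.2.2.2)
  have a3 := hl (yR m o) (List.replicate (rr o) 0)
  have a4 := hl (yR m o) (List.replicate (rv o) 1 ++ List.replicate (rr o) 0)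
  have a5 := hl (yV m o) (List.replicate (rv o) 1)
  rw [hM] at a4
  have c1 : lk eT (y0 e m) (AA r o.1 o.2.2.2) = lA m r o := rfl
  have c2 : lk eT (y1 e m q) (AA r o.2.1 o.2.2.2) = lB m r o := rfl
  have c3 : lk eT (yR m o) (List.replicate (rr o) 0) = lR m o := rfl
  have c4 : lk eT (yV m o) (List.replicate (rv o) 1) = lV m o := rfl
  rw [c1] at a1
  rw [c2] at a2
  rw [c3] at a3
  rw [c4] at a5
  simp only [List.count_append]
  push_cast
  have h6 := mul_le_mul_of_nonneg_right (add_le_add a1 a2)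
    (norm_nonneg (WM L (tp eT U (yR m o) (List.replicate (rr o) 0))
      (tp eT U (yR m o) (List.replicate (rv o) 1 ++ List.replicate (rr o) 0))
      (tp eT U (yV m o) (List.replicate (rv o) 1))))
  rw [mul_add, ← mul_assoc, mul_add, mul_add, mul_add]
  linarith

lemma cntC {j : ℕ} (hqr : q = 2 ^ (j + 1)) (hqm : 5 * (e + 3) * q < 2 * m) (o : OO e q)
    (f : Ed (e + 3) (2 * m)) : (lA m (j + 1) o ++ lB m (j + 1) o).count f ≤
      if f ∈ lA m (j + 1) o ++ lB m (j + 1) o then 1 else 0 := by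
  split_ifs with h
  · have h1 := nodupP hqr hqm o
    rw [lk_PA hqr, lk_PB] at h1
    have h2 : (lA m (j + 1) o ++ lB m (j + 1) o).Nodup := by
      refine h1.sublist ?_
      rw [List.append_assoc]
      exact List.Sublist.append_left (List.sublist_append_right _ _) _
    exact List.nodup_iff_count_le_one.1 h2 f
  · exact (List.count_eq_zero.2 h).le

lemma cntM {j : ℕ} (hqr : q = 2 ^ (j + 1)) (hqm : 5 * (e + 3) * q < 2 * m) (o : OO e q)
    (f : Ed (e + 3) (2 * m)) : (lR m o ++ (lM m o ++ lV m o)).count f ≤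
      if f ∈ lR m o ++ (lM m o ++ lV m o) then 2 else 0 := by
  split_ifs with h
  · have h1 := nodupP hqr hqm o
    have h2 := nodupQ hqr hqm o
    rw [lk_PA hqr, lk_PB] at h1
    rw [lk_QA hqr, lk_QB hqr] at h2
    have h3 : (lR m o).Nodup := by
      refine h1.sublist ?_
      exact (List.sublist_append_right _ _).trans (List.sublist_append_left _ _)
    have h4 : (lM m o ++ lV m o).Nodup := by
      refine h2.sublist ?_
      exact List.Sublist.append (List.sublist_append_right _ _) (List.sublist_append_right _ _)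
    have h5 := List.nodup_iff_count_le_one.1 h3 f
    have h6 := List.nodup_iff_count_le_one.1 h4 f
    rw [List.count_append]
    omega
  · exact (List.count_eq_zero.2 h).le

variable (L) in
/-- the bound of the gradient of the field with respect to one link -/
def bf (r q : ℕ) (f : Ed (e + 3) (2 * m)) (U : Ed (e + 3) (2 * m) → G) : ℝ :=
  ((Fintype.card (OO e q) : ℝ))⁻¹ *
    ((∑ o ∈ (Finset.univ : Finset (OO e q)).filter (fun o => f ∈ lA m r o ++ lB m r o),
      ‖tm eT L r U (y0 e m) o‖) +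
    2 * (nm Finset.univ (fun o : OO e q => lR m o ++ (lM m o ++ lV m o)) f : ℝ))

lemma bf_nonneg (f : Ed (e + 3) (2 * m)) (U : Ed (e + 3) (2 * m) → G) : 0 ≤ bf L r q f U := by
  unfold bf
  have : 0 ≤ ∑ o ∈ (Finset.univ : Finset (OO e q)).filter (fun o => f ∈ lA m r o ++ lB m r o),
      ‖tm eT L r U (y0 e m) o‖ := Finset.sum_nonneg fun _ _ => norm_nonneg _
  positivity

/-- the change of the field -/
lemma phi_lip {j : ℕ} (hqr : q = 2 ^ (j + 1)) (hqm : 5 * (e + 3) * q < 2 * m)
    (U : Ed (e + 3) (2 * m) → G) (f : Ed (e + 3) (2 * m)) (a : Fin n) (s : ℝ) :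
    ‖phi eT L (j + 1) q (Function.update U f (L.ex a s * U f)) (y0 e m) -
      phi eT L (j + 1) q U (y0 e m)‖ ≤ |s| * bf L (j + 1) q f U := by
  classical
  rw [phi_tm, phi_tm, ← smul_sub, ← Finset.sum_sub_distrib, norm_smul, norm_inv,
    Real.norm_natCast]
  unfold bf
  rw [mul_left_comm]
  refine mul_le_mul_of_nonneg_left ?_ (by positivity)
  refine (norm_sum_le _ _).trans ?_
  refine (Finset.sum_le_sum fun o _ => tm_lip hqr U f a s o).trans ?_
  rw [← Finset.mul_sum, Finset.sum_add_distrib]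
  refine mul_le_mul_of_nonneg_left (add_le_add ?_ ?_) (abs_nonneg _)
  · rw [Finset.sum_filter]
    refine Finset.sum_le_sum fun o _ => ?_
    have h1 := cntC hqr hqm o f
    split_ifs at h1 ⊢ with h
    · have h2 : (((lA m (j + 1) o ++ lB m (j + 1) o).count f : ℕ) : ℝ) ≤ 1 := by
        exact_mod_cast h1
      calc _ ≤ 1 * ‖tm eT L (j + 1) U (y0 e m) o‖ :=
            mul_le_mul_of_nonneg_right h2 (norm_nonneg _)
        _ = _ := one_mul _
    · have h2 : (lA m (j + 1) o ++ lB m (j + 1) o).count f = 0 := by omega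
      rw [h2, Nat.cast_zero, zero_mul]
  · have h3 : (nm Finset.univ (fun o : OO e q => lR m o ++ (lM m o ++ lV m o)) f : ℝ) =
        ∑ o : OO e q, if f ∈ lR m o ++ (lM m o ++ lV m o) then (1 : ℝ) else 0 := by
      rw [← Finset.sum_filter, Finset.sum_const, nsmul_eq_mul, mul_one]
      unfold nm
      norm_cast
      congr
    rw [h3, Finset.mul_sum]
    refine Finset.sum_le_sum fun o _ => ?_
    have h1 := cntM hqr hqm o f
    split_ifs at h1 ⊢ with h
    · rw [mul_one]
      exact_mod_cast h1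
    · have h2 : (lR m o ++ (lM m o ++ lV m o)).count f = 0 := by omega
      rw [h2, Nat.cast_zero, mul_zero]

/-- the sum of the squares -/
lemma sum_bf {j : ℕ} (hqr : q = 2 ^ (j + 1)) (hqm : 5 * (e + 3) * q < 2 * m)
    (U : Ed (e + 3) (2 * m) → G) : ∑ f : Ed (e + 3) (2 * m), bf L (j + 1) q f U ^ 2 ≤
      ((Fintype.card (OO e q) : ℝ))⁻¹ ^ 2 *
        (2 * (kO e j q * ∑ o : OO e q, ‖tm eT L (j + 1) U (y0 e m) o‖ ^ 2) +
          8 * ((Fintype.card (OO e q) : ℝ) * ((48 * q ^ 4 : ℕ) : ℝ))) := by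
  classical
  have hq5 : 5 * q < 2 * m := by nlinarith
  obtain ⟨C, hC⟩ : ∃ C : OO e q → List (Ed (e + 3) (2 * m)), C = fun o =>
    lA m (j + 1) o ++ lB m (j + 1) o := ⟨_, rfl⟩
  obtain ⟨R, hR⟩ : ∃ R : OO e q → List (Ed (e + 3) (2 * m)), R = fun o =>
    lR m o ++ (lM m o ++ lV m o) := ⟨_, rfl⟩
  obtain ⟨g, hg⟩ : ∃ g : OO e q → ℝ, g = fun o => ‖tm eT L (j + 1) U (y0 e m) o‖ := ⟨_, rfl⟩
  have hg0 : ∀ o, 0 ≤ g o := fun o => by rw [hg]; exact norm_nonneg _
  have hK1 : ∀ o : OO e q, ∑ f ∈ (C o).toFinset, (nm Finset.univ C f : ℝ) ≤ kO e j q := by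
    intro o
    have h := ovl1 hqr hq5 o
    rw [hC]
    unfold kO
    exact_mod_cast h
  have hK2 : ∀ o : OO e q, ∑ f ∈ (R o).toFinset, (nm Finset.univ R f : ℝ) ≤
      ((48 * q ^ 4 : ℕ) : ℝ) := by
    intro o
    have h := ovl2 hq5 o
    rw [hR]
    exact_mod_cast h
  have hb : ∀ f, bf L (j + 1) q f U = ((Fintype.card (OO e q) : ℝ))⁻¹ *
      ((∑ o ∈ (Finset.univ : Finset (OO e q)).filter (fun o => f ∈ C o), g o) +
      2 * (nm Finset.univ R f : ℝ)) := by
    intro f
    rw [hC, hR, hg]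
    rfl
  have h1 : ∀ f, bf L (j + 1) q f U ^ 2 ≤ ((Fintype.card (OO e q) : ℝ))⁻¹ ^ 2 *
      (2 * ((nm Finset.univ C f : ℝ) *
        ∑ o ∈ (Finset.univ : Finset (OO e q)).filter (fun o => f ∈ C o), g o ^ 2) +
      8 * (nm Finset.univ R f : ℝ) ^ 2) := by
    intro f
    rw [hb, mul_pow]
    refine mul_le_mul_of_nonneg_left ?_ (by positivity)
    obtain ⟨X, hX⟩ : ∃ X : ℝ, X = ∑ o ∈ (Finset.univ : Finset (OO e q)).filter
      (fun o => f ∈ C o), g o := ⟨_, rfl⟩
    have h2 : X ^ 2 ≤ (nm Finset.univ C f : ℝ) *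
        ∑ o ∈ (Finset.univ : Finset (OO e q)).filter (fun o => f ∈ C o), g o ^ 2 := by
      rw [hX]
      have h3 := sq_sum_le_card_mul_sum_sq (s := (Finset.univ : Finset (OO e q)).filter
        (fun o => f ∈ C o)) (f := g)
      have h4 : nm Finset.univ C f = ((Finset.univ : Finset (OO e q)).filter
        (fun o => f ∈ C o)).card := by
        unfold nm
        congr
      rw [h4]
      exact h3
    rw [← hX]
    nlinarith [sq_nonneg (X - 2 * (nm Finset.univ R f : ℝ))]
  refine (Finset.sum_le_sum fun f _ => h1 f).trans ?_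
  rw [← Finset.mul_sum]
  refine mul_le_mul_of_nonneg_left ?_ (by positivity)
  rw [Finset.sum_add_distrib, ← Finset.mul_sum, ← Finset.mul_sum]
  have hgg : ∑ o : OO e q, ‖tm eT L (j + 1) U (y0 e m) o‖ ^ 2 = ∑ o, g o ^ 2 := by rw [hg]
  rw [hgg]
  have k1 : ∑ f : Ed (e + 3) (2 * m), (nm Finset.univ C f : ℝ) *
      ∑ o ∈ (Finset.univ : Finset (OO e q)).filter (fun o => f ∈ C o), g o ^ 2 ≤
      kO e j q * ∑ o, g o ^ 2 := by
    have h3 : ∀ f : Ed (e + 3) (2 * m), (nm Finset.univ C f : ℝ) *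
        ∑ o ∈ (Finset.univ : Finset (OO e q)).filter (fun o => f ∈ C o), g o ^ 2 =
        ∑ o : OO e q, if f ∈ C o then (nm Finset.univ C f : ℝ) * g o ^ 2 else 0 := by
      intro f
      rw [Finset.mul_sum, Finset.sum_filter]
    simp only [h3]
    rw [Finset.sum_comm, Finset.mul_sum]
    refine Finset.sum_le_sum fun o ho => ?_
    rw [← Finset.sum_filter, ← Finset.sum_mul]
    refine mul_le_mul_of_nonneg_right (le_trans (le_of_eq ?_) (hK1 o)) (sq_nonneg _)
    refine Finset.sum_congr ?_ fun _ _ => rfl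
    ext f
    simp
  have k2 : ∑ f : Ed (e + 3) (2 * m), (nm Finset.univ R f : ℝ) ^ 2 ≤
      (Fintype.card (OO e q) : ℝ) * ((48 * q ^ 4 : ℕ) : ℝ) := by
    have h3 : ∀ f : Ed (e + 3) (2 * m), (nm Finset.univ R f : ℝ) ^ 2 =
        ∑ o : OO e q, if f ∈ R o then (nm Finset.univ R f : ℝ) else 0 := by
      intro f
      rw [← Finset.sum_filter, Finset.sum_const, nsmul_eq_mul, pow_two]
      unfold nm
      congr
    simp only [h3]
    rw [Finset.sum_comm]
    refine (Finset.sum_le_sum fun o ho => ?_).trans (le_of_eq (by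
      rw [Finset.sum_const, nsmul_eq_mul, Finset.card_univ]))
    refine le_trans (le_of_eq ?_) (hK2 o)
    rw [← Finset.sum_filter]
    refine Finset.sum_congr ?_ fun _ _ => rfl
    ext f
    simp
  linarith

lemma last_lk {y : Fin (e + 3) → ZMod (2 * m)} (hy : y (Fin.last (e + 2)) = 1)
    {w : List (Fin (e + 3))} (hw : w.count (Fin.last (e + 2)) = 0)
    {f : Ed (e + 3) (2 * m)} (hf : f ∈ lk eT y w) : f.1 (Fin.last (e + 2)) = 1 := by
  obtain ⟨w1, w2, h1, h2⟩ := mem_lk hf
  have h3 : w1.count (Fin.last (e + 2)) = 0 := by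
    rw [h1, List.count_append] at hw
    omega
  rw [h2, Pi.add_apply, dsp_apply, h3, hy, Nat.cast_zero, add_zero]

/-- the field depends on the links in one time slice only -/
lemma bf_zero (hqr : q = 2 ^ r) {f : Ed (e + 3) (2 * m)} (hf : f.1 (Fin.last (e + 2)) ≠ 1)
    (U : Ed (e + 3) (2 * m) → G) : bf L r q f U = 0 := by
  classical
  have hP : ∀ o : OO e q, f ∉ lk eT (y0 e m) (PA r o) := fun o h =>
    hf (last_lk y0_last (cPA_last hqr o).1 h)
  have hQ : ∀ o : OO e q, f ∉ lk eT (y0 e m) (QA r o) := fun o h =>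
    hf (last_lk y0_last (cPA_last hqr o).2 h)
  have hP' : ∀ o : OO e q, f ∉ lk eT (y1 e m q) (PB r o) := fun o h =>
    hf (last_lk y1_last (cPB_last hqr o).1 h)
  have hQ' : ∀ o : OO e q, f ∉ lk eT (y1 e m q) (QB r o) := fun o h =>
    hf (last_lk y1_last (cPB_last hqr o).2 h)
  simp only [lk_PA hqr, lk_QA hqr, lk_PB, lk_QB hqr, List.mem_append, not_or] at hP hQ hP' hQ'
  unfold bf
  have h1 : (Finset.univ : Finset (OO e q)).filter (fun o => f ∈ lA m r o ++ lB m r o) = ∅ := by
    refine Finset.filter_eq_empty_iff.2 fun o _ => ?_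
    rw [List.mem_append, not_or]
    exact ⟨(hP o).1, hP' o⟩
  have h2 : nm Finset.univ (fun o : OO e q => lR m o ++ (lM m o ++ lV m o)) f = 0 := by
    refine nm_zero fun o _ h3 => ?_
    rw [List.mem_append, List.mem_append] at h3
    rcases h3 with h3 | h3 | h3
    · exact (hP o).2 h3
    · exact (hQ o).2 h3
    · exact (hQ' o).2 h3
  rw [h1, h2]
  simp

end tor

end

end Pool.Agent.MG990.L681
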