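import Mathlib
import Pool.Agent.N681.LG.Grd

/-!
# The smooth modulus
-/

open MeasureTheory Matrix Filter
open scoped Matrix.Norms.Frobenius Topology ContDiff
open Pool.Agent.H906R3.YM hiding Pl
open Pool.Agent.W793.YM Pool.Agent.TH618.YM Pool.Agent.Y14
open Pool.Agent.R990 (nm)

namespace Pool.Agent.MG990.L681

set_option linter.unusedSectionVars false
set_option linter.unusedVariables false

noncomputable section

section modulus

variable {N : ℕ}

/-- the smooth modulus -/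
def gs (a η : ℝ) (X : Mat N) : ℝ := Real.sqrt (a ^ 2 * ‖X‖ ^ 2 + η ^ 2)

lemma sqrt_lip_aux {x y η : ℝ} : Real.sqrt (x ^ 2 + η ^ 2) ≤
    Real.sqrt (y ^ 2 + η ^ 2) + |x - y| := by
  have h0 := Real.sqrt_nonneg (y ^ 2 + η ^ 2)
  have h1 := Real.sq_sqrt (show 0 ≤ y ^ 2 + η ^ 2 by positivity)
  have h2 := abs_nonneg (x - y)
  rw [Real.sqrt_le_left (by positivity)]
  have h3 : y * (x - y) ≤ Real.sqrt (y ^ 2 + η ^ 2) * |x - y| := by
    have h4 : |y| ≤ Real.sqrt (y ^ 2 + η ^ 2) := Real.abs_le_sqrt (by nlinarith [sq_nonneg η])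
    calc y * (x - y) ≤ |y * (x - y)| := le_abs_self _
      _ = |y| * |x - y| := abs_mul _ _
      _ ≤ _ := mul_le_mul_of_nonneg_right h4 h2
  have h5 := sq_abs (x - y)
  nlinarith

lemma gs_lip {a : ℝ} (ha : 0 ≤ a) (η : ℝ) (X Y : Mat N) :
    |gs a η X - gs a η Y| ≤ a * ‖X - Y‖ := by
  have h1 := sqrt_lip_aux (x := a * ‖X‖) (y := a * ‖Y‖) (η := η)
  have h2 := sqrt_lip_aux (x := a * ‖Y‖) (y := a * ‖X‖) (η := η)
  have h3 : |a * ‖X‖ - a * ‖Y‖| ≤ a * ‖X - Y‖ := by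
    rw [← mul_sub, abs_mul, abs_of_nonneg ha]
    exact mul_le_mul_of_nonneg_left (abs_norm_sub_norm_le _ _) ha
  have h4 : |a * ‖Y‖ - a * ‖X‖| ≤ a * ‖X - Y‖ := by rw [abs_sub_comm]; exact h3
  unfold gs
  rw [← mul_pow, ← mul_pow, abs_le]
  constructor <;> linarith

lemma gs_close {a η : ℝ} (ha : 0 ≤ a) (hη : 0 ≤ η) (X : Mat N) :
    |gs a η X - a * ‖X‖| ≤ η := by
  have hx : 0 ≤ a * ‖X‖ := mul_nonneg ha (norm_nonneg _)
  have h1 : a * ‖X‖ ≤ gs a η X := by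
    unfold gs
    rw [← mul_pow]
    exact Real.le_sqrt_of_sq_le (by nlinarith [sq_nonneg η])
  have h2 : gs a η X ≤ a * ‖X‖ + η := by
    unfold gs
    rw [← mul_pow, Real.sqrt_le_left (by positivity)]
    nlinarith [mul_nonneg hx hη]
  rw [abs_le]
  constructor <;> linarith

lemma gs_cont (a η : ℝ) : Continuous (gs a η : Mat N → ℝ) :=
  ((continuous_const.mul (continuous_norm.pow 2)).add continuous_const).sqrt

lemma nsq_smooth : ContDiff ℝ ∞ fun X : Mat N => ‖X‖ ^ 2 := by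
  have h1 : (fun X : Mat N => ‖X‖ ^ 2) = fun X => ∑ c, co c X ^ 2 := by
    funext X
    rw [norm_sq_ip, sum_co_sq]
    rfl
  rw [h1]
  exact ContDiff.sum fun c _ => (co c).contDiff.pow 2

lemma gs_smooth (a : ℝ) {η : ℝ} (hη : 0 < η) : ContDiff ℝ ∞ (gs a η : Mat N → ℝ) := by
  refine ((contDiff_const.mul nsq_smooth).add contDiff_const).sqrt fun X => ?_
  have : 0 < a ^ 2 * ‖X‖ ^ 2 + η ^ 2 := by positivity
  exact this.ne'

end modulus

end

end Pool.Agent.MG990.L681
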