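import Mathlib
import Pool.Agent.N681.LG.Mod

/-!
# The time average of the modulus of the field
-/

open MeasureTheory Matrix Filter
open scoped Matrix.Norms.Frobenius Topology ContDiff
open Pool.Agent.H906R3.YM hiding Pl
open Pool.Agent.W793.YM Pool.Agent.TH618.YM Pool.Agent.Y14
open Pool.Agent.R990 (nm)

namespace Pool.Agent.MG990.L681

set_option linter.unusedSectionVars false
set_option linter.unusedVariables false

noncomputable section

section gen

variable {e : ℕ} {A : Type*} [AddCommGroup A] (u : Fin (e + 3) → A)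
  {G : Type*} [Group G] [TopologicalSpace G] [IsTopologicalGroup G] [CompactSpace G]
  [SecondCountableTopology G] [MeasurableSpace G] [BorelSpace G] {N n : ℕ} (L : LD G N n)

/-- the time average of the smooth modulus of the field -/
def Fu (r q K : ℕ) (a η : ℝ) (U : A × Fin (e + 3) → G) : ℝ :=
  (K : ℝ)⁻¹ * ∑ k ∈ Finset.range K,
    gs a η (phi u L r q U ((2 * k + 1) • u (Fin.last (e + 2))))

/-- the bound of the square of the gradient in one time slice -/
def Su (j q : ℕ) (x : A) (U : A × Fin (e + 3) → G) : ℝ :=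
  ((Fintype.card (OO e q) : ℝ))⁻¹ ^ 2 *
    (2 * (kO e j q * ∑ o : OO e q, ‖tm u L (j + 1) U x o‖ ^ 2) +
      8 * ((Fintype.card (OO e q) : ℝ) * ((48 * q ^ 4 : ℕ) : ℝ)))

/-- the bound of the square of the gradient -/
def Hu (j q K : ℕ) (a : ℝ) (U : A × Fin (e + 3) → G) : ℝ :=
  n * (((K : ℝ)⁻¹ * a) ^ 2 * ∑ k ∈ Finset.range K,
    Su u L j q ((2 * k + 1) • u (Fin.last (e + 2))) U)

variable {u L}

lemma Fu_cont (r q K : ℕ) (a η : ℝ) :
    Continuous fun U : A × Fin (e + 3) → G => Fu u L r q K a η U :=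
  continuous_const.mul (continuous_finsetSum _ fun k _ => (gs_cont a η).comp (phi_cont' r _))

lemma Su_cont (j q : ℕ) (x : A) :
    Continuous fun U : A × Fin (e + 3) → G => Su u L j q x U := by
  have h1 : Continuous fun U : A × Fin (e + 3) → G =>
      ∑ o : OO e q, ‖tm u L (j + 1) U x o‖ ^ 2 :=
    continuous_finsetSum _ fun o _ => (tm_cont (j + 1) x o).norm.pow 2
  exact continuous_const.mul ((continuous_const.mul (continuous_const.mul h1)).add
    continuous_const)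

lemma Hu_cont (j q K : ℕ) (a : ℝ) :
    Continuous fun U : A × Fin (e + 3) → G => Hu u L j q K a U :=
  continuous_const.mul (continuous_const.mul (continuous_finsetSum _ fun k _ => Su_cont j q _))

lemma kO_nonneg (e j q : ℕ) : 0 ≤ kO e j q := by unfold kO; positivity

lemma Su_nonneg (j q : ℕ) (x : A) (U : A × Fin (e + 3) → G) : 0 ≤ Su u L j q x U := by
  unfold Su
  have h1 := kO_nonneg e j q
  have h2 : 0 ≤ ∑ o : OO e q, ‖tm u L (j + 1) U x o‖ ^ 2 :=
    Finset.sum_nonneg fun _ _ => sq_nonneg _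
  positivity

lemma Hu_nonneg (j q K : ℕ) (a : ℝ) (U : A × Fin (e + 3) → G) : 0 ≤ Hu u L j q K a U := by
  unfold Hu
  have h2 : 0 ≤ ∑ k ∈ Finset.range K, Su u L j q ((2 * k + 1) • u (Fin.last (e + 2))) U :=
    Finset.sum_nonneg fun _ _ => Su_nonneg _ _ _ _
  positivity

lemma nphi_gauge {q r : ℕ} (hqr : q = 2 ^ r) (γ : A → G) (U : A × Fin (e + 3) → G) (x : A) :
    ‖phi u L r q (fun f => γ f.1 * U f * (γ (f.1 + u f.2))⁻¹) x‖ = ‖phi u L r q U x‖ := by
  rw [phi_gauge hqr, norm_ctr, norm_lmul]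

lemma Fu_gauge {q r : ℕ} (hqr : q = 2 ^ r) (K : ℕ) (a η : ℝ) (γ : A → G)
    (U : A × Fin (e + 3) → G) :
    Fu u L r q K a η (fun f => γ f.1 * U f * (γ (f.1 + u f.2))⁻¹) = Fu u L r q K a η U := by
  unfold Fu gs
  simp only [nphi_gauge hqr]

lemma Hu_gauge {q j : ℕ} (hqr : q = 2 ^ (j + 1)) (K : ℕ) (a : ℝ) (γ : A → G)
    (U : A × Fin (e + 3) → G) :
    Hu u L j q K a (fun f => γ f.1 * U f * (γ (f.1 + u f.2))⁻¹) = Hu u L j q K a U := by
  unfold Hu Su
  simp only [ntm_gauge hqr]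

variable {A' : Type*} [AddCommGroup A'] {u' : Fin (e + 3) → A'}

lemma Fu_map {q r : ℕ} (K : ℕ) (a η : ℝ) {U : A × Fin (e + 3) → G} {U' : A' × Fin (e + 3) → G}
    (f : A →+ A') (hu : ∀ i, f (u i) = u' i) (hU : ∀ e, U e = U' (f e.1, e.2)) :
    Fu u L r q K a η U = Fu u' L r q K a η U' := by
  unfold Fu
  refine congrArg (fun t => (K : ℝ)⁻¹ * t) (Finset.sum_congr rfl fun k _ => ?_)
  rw [phi_map f hu hU, map_nsmul, hu]

lemma Hu_map {q j : ℕ} (K : ℕ) (a : ℝ) {U : A × Fin (e + 3) → G} {U' : A' × Fin (e + 3) → G}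
    (f : A →+ A') (hu : ∀ i, f (u i) = u' i) (hU : ∀ e, U e = U' (f e.1, e.2)) :
    Hu u L j q K a U = Hu u' L j q K a U' := by
  unfold Hu
  refine congrArg (fun t => (n : ℝ) * (((K : ℝ)⁻¹ * a) ^ 2 * t))
    (Finset.sum_congr rfl fun k _ => ?_)
  unfold Su
  have h1 : ∀ o : OO e q, tm u L (j + 1) U ((2 * k + 1) • u (Fin.last (e + 2))) o =
      tm u' L (j + 1) U' ((2 * k + 1) • u' (Fin.last (e + 2))) o := fun o => by
    rw [tm_map f hu hU, map_nsmul, hu]
  simp only [h1]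

/-- the links of the observable -/
lemma Fu_congr {q r : ℕ} (hqr : q = 2 ^ r) (K : ℕ) (a η : ℝ) {U U' : A × Fin (e + 3) → G}
    (h : ∀ k < K, ∀ w1 : List (Fin (e + 3)), (∀ j, w1.count j ≤ 7 * q) →
      w1.count (Fin.last (e + 2)) = 0 → ∀ i, i ≠ Fin.last (e + 2) →
      U ((2 * k + 1) • u (Fin.last (e + 2)) + dsp u w1, i) =
        U' ((2 * k + 1) • u (Fin.last (e + 2)) + dsp u w1, i)) :
    Fu u L r q K a η U = Fu u L r q K a η U' := by
  unfold Fu
  refine congrArg (fun t => (K : ℝ)⁻¹ * t) (Finset.sum_congr rfl fun k hk => ?_)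
  rw [phi_congr hqr (h k (Finset.mem_range.1 hk))]

lemma Hu_congr {q j : ℕ} (hqr : q = 2 ^ (j + 1)) (K : ℕ) (a : ℝ) {U U' : A × Fin (e + 3) → G}
    (h : ∀ k < K, ∀ w1 : List (Fin (e + 3)), (∀ j, w1.count j ≤ 7 * q) →
      w1.count (Fin.last (e + 2)) = 0 → ∀ i, i ≠ Fin.last (e + 2) →
      U ((2 * k + 1) • u (Fin.last (e + 2)) + dsp u w1, i) =
        U' ((2 * k + 1) • u (Fin.last (e + 2)) + dsp u w1, i)) :
    Hu u L j q K a U = Hu u L j q K a U' := by
  unfold Hu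
  refine congrArg (fun t => (n : ℝ) * (((K : ℝ)⁻¹ * a) ^ 2 * t))
    (Finset.sum_congr rfl fun k hk => ?_)
  unfold Su
  simp only [tm_congr hqr (h k (Finset.mem_range.1 hk))]

end gen

section tor

variable {G : Type*} [Group G] [TopologicalSpace G] [IsTopologicalGroup G] [CompactSpace G]
  [SecondCountableTopology G] [MeasurableSpace G] [BorelSpace G]
  {N n : ℕ} {L : LD G N n} {e m : ℕ} [NeZero m] {q r : ℕ}

/-- the shift in the time -/
def zk (e m k : ℕ) : Fin (e + 3) → ZMod (2 * m) := (2 * k) • eT (Fin.last (e + 2))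

lemma y0_zk (k : ℕ) : y0 e m + zk e m k = (2 * k + 1) • eT (Fin.last (e + 2)) := by
  unfold y0 zk
  rw [add_smul, one_smul]
  exact add_comm _ _

lemma zk_last (k : ℕ) : zk e m k (Fin.last (e + 2)) = ((2 * k : ℕ) : ZMod (2 * m)) := by
  unfold zk
  simp [eT]

lemma phi_zk (k : ℕ) (U : Ed (e + 3) (2 * m) → G) :
    phi eT L r q U ((2 * k + 1) • eT (Fin.last (e + 2))) =
      phi eT L r q (tr (zk e m k) U) (y0 e m) := by
  have h1 : (tr (zk e m k) U : Ed (e + 3) (2 * m) → G) = fun f => U (f.1 + zk e m k, f.2) := rfl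
  rw [h1, phi_shift, y0_zk]

lemma tm_zk (k : ℕ) (U : Ed (e + 3) (2 * m) → G) (o : OO e q) :
    tm eT L r U ((2 * k + 1) • eT (Fin.last (e + 2))) o =
      tm eT L r (tr (zk e m k) U) (y0 e m) o := by
  have h1 : (tr (zk e m k) U : Ed (e + 3) (2 * m) → G) = fun f => U (f.1 + zk e m k, f.2) := rfl
  rw [h1, tm_shift, y0_zk]

lemma Su_zk {j : ℕ} (k : ℕ) (U : Ed (e + 3) (2 * m) → G) :
    Su eT L j q ((2 * k + 1) • eT (Fin.last (e + 2))) U =
      Su eT L j q (y0 e m) (tr (zk e m k) U) := by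
  unfold Su
  simp only [tm_zk]

lemma tr_update (z : Fin (e + 3) → ZMod (2 * m)) (U : Ed (e + 3) (2 * m) → G)
    (f : Ed (e + 3) (2 * m)) (g : G) :
    tr z (Function.update U f g) = Function.update (tr z U) (f.1 - z, f.2) g := by
  funext f'
  unfold tr
  by_cases h : f' = (f.1 - z, f.2)
  · subst h
    simp
  · rw [Function.update_of_ne h, Function.update_of_ne]
    intro h1
    refine h ?_
    rw [← h1]
    refine Prod.ext ?_ rfl
    show f'.1 = f'.1 + z - z
    rw [add_sub_cancel_right]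

/-- the change of the observable -/
lemma Fu_lip {j : ℕ} (hqr : q = 2 ^ (j + 1)) (hqm : 5 * (e + 3) * q < 2 * m) (K : ℕ) {a : ℝ}
    (ha : 0 ≤ a) (η : ℝ) (U : Ed (e + 3) (2 * m) → G) (f : Ed (e + 3) (2 * m)) (b : Fin n)
    (s : ℝ) :
    |Fu eT L (j + 1) q K a η (Function.update U f (L.ex b s * U f)) -
      Fu eT L (j + 1) q K a η U| ≤
      ((K : ℝ)⁻¹ * a) * (∑ k ∈ Finset.range K,
        bf L (j + 1) q (f.1 - zk e m k, f.2) (tr (zk e m k) U)) * |s| := by
  unfold Fu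
  rw [← mul_sub, ← Finset.sum_sub_distrib, abs_mul, abs_of_nonneg (by positivity : (0 : ℝ) ≤
    (K : ℝ)⁻¹)]
  rw [mul_assoc, mul_assoc]
  refine mul_le_mul_of_nonneg_left ?_ (by positivity)
  refine (Finset.abs_sum_le_sum_abs _ _).trans ?_
  rw [Finset.sum_mul, Finset.mul_sum]
  refine Finset.sum_le_sum fun k _ => ?_
  refine (gs_lip ha η _ _).trans (mul_le_mul_of_nonneg_left ?_ ha)
  rw [phi_zk, phi_zk, tr_update]
  have h1 : U f = tr (zk e m k) U (f.1 - zk e m k, f.2) := by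
    unfold tr
    simp
  rw [h1]
  refine (phi_lip hqr hqm (tr (zk e m k) U) (f.1 - zk e m k, f.2) b s).trans (le_of_eq ?_)
  ring

lemma sq_sum_one {ι : Type*} [DecidableEq ι] {s : Finset ι} {x : ι → ℝ}
    (h : ∀ i ∈ s, ∀ j ∈ s, i ≠ j → x i = 0 ∨ x j = 0) : (∑ i ∈ s, x i) ^ 2 = ∑ i ∈ s, x i ^ 2 := by
  by_cases h0 : ∃ i ∈ s, x i ≠ 0
  · obtain ⟨i, hi, hxi⟩ := h0
    have h1 : ∀ j ∈ s, j ≠ i → x j = 0 := fun j hj hji =>
      (h i hi j hj (Ne.symm hji)).resolve_left hxi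
    rw [Finset.sum_eq_single i h1 (fun h2 => absurd hi h2),
      Finset.sum_eq_single i (fun j hj hji => by rw [h1 j hj hji]; ring)
        (fun h2 => absurd hi h2)]
  · push Not at h0
    rw [Finset.sum_eq_zero h0, Finset.sum_eq_zero fun i hi => by rw [h0 i hi]; ring]
    ring

/-- **the bound of the gradient** -/
theorem grad_le {j : ℕ} (hqr : q = 2 ^ (j + 1)) (hqm : 5 * (e + 3) * q < 2 * m) {K : ℕ}
    (hK : K ≤ m) {a : ℝ} (ha : 0 ≤ a) (η : ℝ) (U : Ed (e + 3) (2 * m) → G) :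
    ∑ f : Ed (e + 3) (2 * m), ∑ b : Fin n,
      (deriv (fun s : ℝ => Fu eT L (j + 1) q K a η (Function.update U f (L.ex b s * U f))) 0) ^ 2
      ≤ Hu eT L j q K a U := by
  classical
  obtain ⟨c, hc⟩ : ∃ c : Ed (e + 3) (2 * m) → ℝ, c = fun f => ((K : ℝ)⁻¹ * a) *
    (∑ k ∈ Finset.range K, bf L (j + 1) q (f.1 - zk e m k, f.2) (tr (zk e m k) U)) := ⟨_, rfl⟩
  have hc0 : ∀ f, 0 ≤ c f := fun f => by
    rw [hc]
    exact mul_nonneg (by positivity) (Finset.sum_nonneg fun k _ => bf_nonneg _ _)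
  have h1 : ∀ (f : Ed (e + 3) (2 * m)) (b : Fin n),
      (deriv (fun s : ℝ => Fu eT L (j + 1) q K a η (Function.update U f (L.ex b s * U f))) 0) ^ 2
        ≤ c f ^ 2 := by
    intro f b
    have h2 : ‖deriv (fun s : ℝ => Fu eT L (j + 1) q K a η
        (Function.update U f (L.ex b s * U f))) 0‖ ≤ c f := by
      refine norm_deriv_le_of_lip' (hc0 f) (Eventually.of_forall fun s => ?_)
      have h3 := Fu_lip (L := L) hqr hqm K ha η U f b s
      have h4 : Function.update U f (L.ex b 0 * U f) = U := by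
        rw [L.ex_zero, one_mul, Function.update_eq_self]
      rw [h4, Real.norm_eq_abs, Real.norm_eq_abs, sub_zero]
      rw [hc]
      exact h3
    rw [← sq_abs, ← Real.norm_eq_abs]
    exact pow_le_pow_left₀ (norm_nonneg _) h2 2
  refine (Finset.sum_le_sum fun f _ => Finset.sum_le_sum fun b _ => h1 f b).trans ?_
  simp only [Finset.sum_const, Finset.card_univ, Fintype.card_fin, nsmul_eq_mul]
  rw [← Finset.mul_sum]
  unfold Hu
  refine mul_le_mul_of_nonneg_left ?_ (Nat.cast_nonneg n)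
  rw [hc]
  simp only [mul_pow ((K : ℝ)⁻¹ * a)]
  rw [← Finset.mul_sum]
  refine mul_le_mul_of_nonneg_left ?_ (sq_nonneg _)
  have h5 : ∀ f : Ed (e + 3) (2 * m),
      (∑ k ∈ Finset.range K, bf L (j + 1) q (f.1 - zk e m k, f.2) (tr (zk e m k) U)) ^ 2 =
      ∑ k ∈ Finset.range K, bf L (j + 1) q (f.1 - zk e m k, f.2) (tr (zk e m k) U) ^ 2 := by
    intro f
    refine sq_sum_one fun k hk k' hk' hkk => ?_
    by_contra hcon
    push Not at hcon
    obtain ⟨a1, a2⟩ := hcon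
    have b1 : (f.1 - zk e m k) (Fin.last (e + 2)) = 1 := by
      by_contra h6
      exact a1 (bf_zero hqr h6 _)
    have b2 : (f.1 - zk e m k') (Fin.last (e + 2)) = 1 := by
      by_contra h6
      exact a2 (bf_zero hqr h6 _)
    rw [Pi.sub_apply, zk_last] at b1 b2
    have b3 : ((2 * k : ℕ) : ZMod (2 * m)) = ((2 * k' : ℕ) : ZMod (2 * m)) := by
      rw [sub_eq_iff_eq_add] at b1 b2
      exact add_left_cancel (b1.symm.trans b2)
    have k1 := Finset.mem_range.1 hk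
    have k2 := Finset.mem_range.1 hk'
    have b4 := cast_inj' b3 (by omega) (by omega)
    omega
  simp only [h5]
  rw [Finset.sum_comm]
  refine Finset.sum_le_sum fun k _ => ?_
  rw [Su_zk]
  have h6 : ∑ f : Ed (e + 3) (2 * m),
      bf L (j + 1) q (f.1 - zk e m k, f.2) (tr (zk e m k) U) ^ 2 =
      ∑ f : Ed (e + 3) (2 * m), bf L (j + 1) q f (tr (zk e m k) U) ^ 2 :=
    Equiv.sum_comp ((Equiv.subRight (zk e m k)).prodCongr (Equiv.refl (Fin (e + 3))))
      (fun f => bf L (j + 1) q f (tr (zk e m k) U) ^ 2)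
  rw [h6]
  exact sum_bf hqr hqm (tr (zk e m k) U)

end tor

end

end Pool.Agent.MG990.L681
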