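import Mathlib
import Pool.Agent.Y14.Defs

/-!
# Lattice Yang-Mills theory: the Langevin dynamics, definitions
-/

open MeasureTheory Matrix Filter Pool.Agent.Y14.Wilson
open scoped Matrix.Norms.Frobenius Topology ContDiff

namespace Pool.Agent.N681.LG

noncomputable section

variable {N n d D : ℕ} {G : Subgroup (UU N)}

/-- The configuration `U` with the variable of the link `e` multiplied by `exp (s X_a)` from the
left. -/
def move {E : Type*} [DecidableEq E] (B : LieBasis G n) (e : E) (a : Fin n) (s : ℝ) (U : E → G) :
    E → G :=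
  Function.update U e (B.ex a s * U e)

/-- The square `|∇F|^2` of the gradient of `F` at `U`: the sum, over all links and over an
orthonormal basis of the Lie algebra, of the squares of the derivatives of `F`. -/
def gradSq {E : Type*} [DecidableEq E] (B : LieBasis G n) (F : (E → G) → ℝ) (U : E → G) : ℝ :=
  ∑' e : E, ∑ a : Fin n, deriv (fun s : ℝ => F (move B e a s U)) 0 ^ 2

/-- Smooth functions of finitely many link variables. -/
def Smooth {E : Type*} (F : (E → G) → ℝ) : Prop :=
  ∃ (S : Finset E) (Φ : (S → Mt N) → ℝ), ContDiff ℝ ∞ Φ ∧ ∀ U, F U = Φ fun e => mt (U e)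

/-- The expectation of `F` in the lattice Yang-Mills theory on `(ℤ/l)^d`, `μ` being the Haar
measure. -/
def expectT (l : ℕ) [NeZero l] [MeasurableSpace G] (μ : Measure G) (β : ℝ)
    (F : (Link d l → G) → ℝ) : ℝ :=
  (∫ U : Link d l → G, F U * Real.exp (-(β * action U)) ∂(Measure.pi fun _ => μ)) /
    ∫ U : Link d l → G, Real.exp (-(β * action U)) ∂(Measure.pi fun _ => μ)

/-- Gauge transformation of the link variables of the torus. -/
def gaugeT {l : ℕ} (γ : (Fin d → ZMod l) → G) (U : Link d l → G) : Link d l → G :=
  fun e => γ e.1 * U e * (γ (e.1 + Pi.single e.2 1))⁻¹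

/-- The Poincaré inequality with the constant `lam` for the gauge invariant functions in the volume
`(ℤ/l)^d`: the spectral gap, in the space of gauge invariant functions, of the Langevin dynamics
(the reversible diffusion with the Dirichlet form `E |∇F|^2`, whose invariant measure is the
lattice Yang-Mills measure) is at least `lam`. -/
def Poincare (d l : ℕ) [NeZero l] [MeasurableSpace G] (μ : Measure G) (B : LieBasis G n)
    (β lam : ℝ) : Prop :=
  ∀ F : (Link d l → G) → ℝ, Smooth F → (∀ γ U, F (gaugeT γ U) = F U) →
    lam * (expectT l μ β (fun U => F U ^ 2) - expectT l μ β F ^ 2) ≤ expectT l μ β (gradSq B F)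

/-- The Poincaré inequality with the constant `lam` for the local gauge invariant functions in the
infinite volume state `ν`. -/
def PoincareZ [MeasurableSpace G] (ν : Measure (LinkZ (D + 1) → G)) (B : LieBasis G n)
    (lam : ℝ) : Prop :=
  ∀ (R : ℕ) (F : (LinkZ (D + 1) → G) → ℝ), IsLocal R F → Smooth F →
    lam * (∫ V, F V ^ 2 ∂ν - (∫ V, F V ∂ν) ^ 2) ≤ ∫ V, gradSq B F V ∂ν

/-- In all even volumes of side larger than `L` the spectral gap of the Langevin dynamics in the
space of gauge invariant functions is at most `g`. -/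
def GapBound (D : ℕ) [MeasurableSpace G] (μ : Measure G) (B : LieBasis G n) (β L g : ℝ) : Prop :=
  ∀ (l : ℕ) [NeZero l], Even l → L < l → ∀ lam : ℝ, Poincare (D + 1) l μ B β lam → lam ≤ g

/-- In all infinite volume limits the spectral gap of the Langevin dynamics, for local gauge
invariant functions, is at most `g`. -/
def GapBoundZ (D : ℕ) [MeasurableSpace G] (μ : Measure G) (B : LieBasis G n) (β g : ℝ) : Prop :=
  ∀ ν : Measure (LinkZ (D + 1) → G), IsInfVol μ β ν → ∀ lam : ℝ, PoincareZ ν B lam → lam ≤ g

/-- A slow mode in finite volume: the variance of `F` is at least `c` and its Dirichlet form is at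
most `g` in all even volumes of side larger than `R`. -/
def SlowT [MeasurableSpace G] (μ : Measure G) (B : LieBasis G n) (β c g : ℝ) (R : ℕ)
    (F : (LinkZ d → G) → ℝ) : Prop :=
  ∀ (l : ℕ) [NeZero l], Even l → R < l →
    c ≤ expect l μ β (fun V => F V ^ 2) - expect l μ β F ^ 2 ∧
    expectT l μ β (gradSq B fun U : Link d l → G => F (per U)) ≤ g

/-- A slow mode in infinite volume: the variance of `F` is at least `c` and its Dirichlet form is at
most `g` in all infinite volume limits. -/
def SlowZ [MeasurableSpace G] (μ : Measure G) (B : LieBasis G n) (β c g : ℝ)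
    (F : (LinkZ (D + 1) → G) → ℝ) : Prop :=
  ∀ ν : Measure (LinkZ (D + 1) → G), IsInfVol μ β ν →
    c ≤ ∫ V, F V ^ 2 ∂ν - (∫ V, F V ∂ν) ^ 2 ∧ ∫ V, gradSq B F V ∂ν ≤ g

end

end Pool.Agent.N681.LG
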