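import Mathlib
import Pool.Agent.N681.LG.Avg
import Pool.Agent.R990.MG.Fin

/-!
# The variance and the Dirichlet form in finite volume
-/

open MeasureTheory Matrix Filter
open scoped Matrix.Norms.Frobenius Topology ContDiff
open Pool.Agent.H906R3.YM hiding Pl
open Pool.Agent.W793.YM Pool.Agent.TH618.YM Pool.Agent.Y14
open Pool.Agent.R990 (nm)

namespace Pool.Agent.MG990.L681

set_option linter.unusedSectionVars false
set_option linter.unusedVariables false

noncomputable section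

variable {G : Type*} [Group G] [TopologicalSpace G] [IsTopologicalGroup G] [CompactSpace G]
  [SecondCountableTopology G] [MeasurableSpace G] [BorelSpace G] (μ : Measure G)
  [IsProbabilityMeasure μ] [μ.IsMulLeftInvariant] [μ.IsMulRightInvariant] [μ.IsInvInvariant]
  {N n : ℕ} {L : LD G N n}

section l2

variable {d l : ℕ} [NeZero l] {β : ℝ}

/-- the distance of two observables with a large correlation -/
lemma en_cov {O T : (Ed d l → G) → ℝ} (hO : Continuous O) (hT : Continuous T)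
    (hTT : EX μ L β (fun U => T U ^ 2) = EX μ L β (fun U => O U ^ 2)) {δ : ℝ}
    (hcov : Real.exp (-δ) * (EX μ L β (fun U => O U ^ 2) - EX μ L β O ^ 2) ≤
      EX μ L β (fun U => O U * T U) - EX μ L β O ^ 2)
    (hV : 0 ≤ EX μ L β (fun U => O U ^ 2) - EX μ L β O ^ 2) :
    en μ L β (fun U => T U - O U) ^ 2 ≤
      2 * δ * (EX μ L β (fun U => O U ^ 2) - EX μ L β O ^ 2) := by
  have e1 : (fun U : Ed d l → G => (T U - O U) ^ 2) =
      fun U => T U ^ 2 + (-2) * (O U * T U) + 1 * O U ^ 2 := by funext U; ring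
  rw [en_sq, e1, EX_add3 μ (L := L) (β := β) (F := fun U => T U ^ 2)
    (H := fun U => O U * T U) (K := fun U => O U ^ 2) (hT.pow 2) (hO.mul hT) (hO.pow 2) (-2) 1,
    hTT]
  have h1 := Real.add_one_le_exp (-δ)
  have h2 := mul_le_mul_of_nonneg_right h1 hV
  linarith

lemma en_sub_le {F H : (Ed d l → G) → ℝ} (hF : Continuous F) (hH : Continuous H) :
    en μ L β F ≤ en μ L β H + en μ L β (fun U => F U - H U) := by
  have h1 := en_add μ (L := L) (β := β) hH (hF.sub hH)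
  have e1 : (fun U : Ed d l → G => H U + (F - H) U) = F := by
    funext U; simp
  rw [e1] at h1
  exact h1

lemma en_neg (F : (Ed d l → G) → ℝ) : en μ L β (fun U => -F U) = en μ L β F := by
  unfold en
  simp only [neg_sq]

lemma en_bdd {F : (Ed d l → G) → ℝ} (hF : Continuous F) {η : ℝ} (hη : 0 ≤ η)
    (h : ∀ U, |F U| ≤ η) : en μ L β F ≤ η := by
  refine (en_mono μ (L := L) (β := β) hF (continuous_const (y := η)) h).trans (le_of_eq ?_)
  unfold en
  rw [EX_const, Real.sqrt_sq hη]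

/-- the variance and the distance to the constants -/
lemma var_eq {F : (Ed d l → G) → ℝ} (hF : Continuous F) (c : ℝ) :
    EX μ L β (fun U => (F U - c) ^ 2) =
      (EX μ L β (fun U => F U ^ 2) - EX μ L β F ^ 2) + (EX μ L β F - c) ^ 2 := by
  have e1 : (fun U : Ed d l → G => (F U - c) ^ 2) =
      fun U => F U ^ 2 + (-2 * c) * F U + c ^ 2 * 1 := by funext U; ring
  rw [e1, EX_add3 μ (L := L) (β := β) (F := fun U => F U ^ 2)
    (H := F) (K := fun U => 1) (hF.pow 2) hF continuous_const (-2 * c) (c ^ 2), EX_one]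
  ring

/-- **the variance of an average** -/
lemma var_avg {O : (Ed d l → G) → ℝ} (hO : Continuous O) {K : ℕ} (hK : 1 ≤ K)
    {T g : ℕ → (Ed d l → G) → ℝ} (hT : ∀ k, Continuous (T k)) (hg : ∀ k, Continuous (g k))
    {η V : ℝ} (hη : 0 ≤ η) (hgT : ∀ k U, |g k U - T k U| ≤ η)
    (hV : V = EX μ L β (fun U => O U ^ 2) - EX μ L β O ^ 2) (hV0 : (4 * η) ^ 2 ≤ V)
    (hTO : ∀ k < K, en μ L β (fun U => T k U - O U) ^ 2 ≤ V / 4) :
    V / 16 ≤ EX μ L β (fun U => ((K : ℝ)⁻¹ * ∑ k ∈ Finset.range K, g k U) ^ 2) -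
      EX μ L β (fun U => (K : ℝ)⁻¹ * ∑ k ∈ Finset.range K, g k U) ^ 2 := by
  have hVn : 0 ≤ V := (sq_nonneg _).trans hV0
  have hK0 : (0 : ℝ) < K := by exact_mod_cast hK
  obtain ⟨w, hw⟩ : ∃ w, w = Real.sqrt V := ⟨_, rfl⟩
  have hw0 : 0 ≤ w := by rw [hw]; exact Real.sqrt_nonneg _
  have hw2 : w ^ 2 = V := by rw [hw]; exact Real.sq_sqrt hVn
  have hηw : 4 * η ≤ w := by
    refine (pow_le_pow_iff_left₀ (by positivity) hw0 two_ne_zero).1 ?_
    rw [hw2]; exact hV0
  obtain ⟨F, hF⟩ : ∃ F : (Ed d l → G) → ℝ, F = fun U =>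
    (K : ℝ)⁻¹ * ∑ k ∈ Finset.range K, g k U := ⟨_, rfl⟩
  have hFc : Continuous F := by
    rw [hF]
    exact continuous_const.mul (continuous_finsetSum _ fun k _ => hg k)
  obtain ⟨c, hc⟩ : ∃ c, c = EX μ L β F := ⟨_, rfl⟩
  have h1 : w ≤ en μ L β (fun U => O U - c) := by
    refine (pow_le_pow_iff_left₀ hw0 (en_nonneg μ _) two_ne_zero).1 ?_
    rw [en_sq, var_eq μ hO, hw2, ← hV]
    linarith [sq_nonneg (EX μ L β O - c)]
  have h2 : en μ L β (fun U => O U - c) ≤ en μ L β (fun U => F U - c) +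
      en μ L β (fun U => O U - F U) := by
    have h3 := en_sub_le μ (L := L) (β := β) (F := fun U => O U - c) (H := fun U => F U - c)
      (hO.sub continuous_const) (hFc.sub continuous_const)
    have e1 : (fun U : Ed d l → G => (O U - c) - (F U - c)) = fun U => O U - F U := by
      funext U; ring
    rw [e1] at h3
    exact h3
  have h4 : en μ L β (fun U => O U - F U) ≤ w / 2 + η := by
    have e1 : (fun U : Ed d l → G => O U - F U) = fun U =>
        (K : ℝ)⁻¹ * ∑ k ∈ Finset.range K, (O U - g k U) := by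
      funext U
      rw [hF, Finset.sum_sub_distrib, Finset.sum_const, Finset.card_range, nsmul_eq_mul, mul_sub,
        ← mul_assoc, inv_mul_cancel₀ hK0.ne', one_mul]
    rw [e1, en_smul μ (inv_nonneg.2 hK0.le)]
    have h5 : en μ L β (fun U => ∑ k ∈ Finset.range K, (O U - g k U)) ≤
        ∑ k ∈ Finset.range K, en μ L β (fun U => O U - g k U) :=
      en_sum μ (Finset.range K) fun k => hO.sub (hg k)
    have h6 : ∀ k ∈ Finset.range K, en μ L β (fun U => O U - g k U) ≤ w / 2 + η := by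
      intro k hk
      have h7 := en_add μ (L := L) (β := β) (F := fun U => -(T k U - O U))
        (H := fun U => -(g k U - T k U)) ((hT k).sub hO).neg ((hg k).sub (hT k)).neg
      have e2 : (fun U : Ed d l → G => -(T k U - O U) + -(g k U - T k U)) =
          fun U => O U - g k U := by funext U; ring
      rw [e2, en_neg, en_neg] at h7
      have h8 : en μ L β (fun U => T k U - O U) ≤ w / 2 := by
        refine (pow_le_pow_iff_left₀ (en_nonneg μ _) (by positivity) two_ne_zero).1 ?_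
        refine (hTO k (Finset.mem_range.1 hk)).trans (le_of_eq ?_)
        rw [div_pow, hw2]; norm_num
      have h9 : en μ L β (fun U => g k U - T k U) ≤ η :=
        en_bdd μ ((hg k).sub (hT k)) hη (hgT k)
      linarith
    have h10 := h5.trans (Finset.sum_le_sum h6)
    rw [Finset.sum_const, Finset.card_range, nsmul_eq_mul] at h10
    calc _ ≤ (K : ℝ)⁻¹ * (K * (w / 2 + η)) := mul_le_mul_of_nonneg_left h10 (by positivity)
      _ = w / 2 + η := by rw [← mul_assoc, inv_mul_cancel₀ hK0.ne', one_mul]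
  have h11 : w / 4 ≤ en μ L β (fun U => F U - c) := by linarith
  have h12 := pow_le_pow_left₀ (by positivity) h11 2
  rw [en_sq, var_eq μ hFc, ← hc, sub_self, div_pow, hw2] at h12
  rw [hc] at h12
  have h13 : V / 4 ^ 2 = V / 16 := by norm_num
  rw [h13] at h12
  have h14 : EX μ L β (fun U => F U ^ 2) - EX μ L β F ^ 2 + 0 ^ 2 =
    EX μ L β (fun U => F U ^ 2) - EX μ L β F ^ 2 := by ring
  rw [h14] at h12
  rw [hF] at h12
  exact h12

end l2

section dir

variable {e m : ℕ} [NeZero m] {q : ℕ} {β : ℝ}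

/-- the constant of the bound of the gradient -/
def CS (e : ℕ) (A : ℝ) : ℝ := 160 * (e + 3) * A + 384

lemma EX_Su {j : ℕ} (hβ : 0 < β) (hqr : q = 2 ^ (j + 1)) {a0 A lam : ℝ}
    (hA : 1 ≤ A) (hlam : 1 ≤ lam) (haA : a0 ^ 2 ≤ A * lam / β)
    (hS : SB μ L (e + 3) m β (fun k => a0 * Real.sqrt (2 ^ k)) (j + 1 + 3))
    (hqβ : (q : ℝ) ^ (e + 1) * ((j + 2 : ℕ) * lam) ≤ β) :
    EX μ L β (fun U : Ed (e + 3) (2 * m) → G => Su eT L j q (y0 e m) U) ≤
      CS e A * (q / (q : ℝ) ^ (e + 1)) := by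
  have hq : 1 ≤ q := by rw [hqr]; exact Nat.one_le_two_pow
  have hq1 : (1 : ℝ) ≤ q := by exact_mod_cast hq
  have hq0 : (0 : ℝ) < q := by linarith
  have he0 : (0 : ℝ) ≤ e := Nat.cast_nonneg e
  have hj0 : (0 : ℝ) ≤ j := Nat.cast_nonneg j
  obtain ⟨M, hM⟩ : ∃ M : ℝ, M = (Fintype.card (OO e q) : ℝ) := ⟨_, rfl⟩
  have hM0 : 0 < M := by rw [hM]; exact card_pos hq
  have hMq : M = (q : ℝ) ^ (e + 4) := by
    rw [hM, card_OO]; push_cast; ring
  have hS' : EX μ L β (fun U : Ed (e + 3) (2 * m) → G =>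
      ∑ o : OO e q, dv L (rect U (yR m o) 0 1 (rr o) (rv o)) ^ 2) ≤
      M * (4 * (A * lam / β) * q) := by
    rw [EX_fsum μ Finset.univ fun o => dvr_cont o]
    calc _ ≤ ∑ _o : OO e q, 4 * (A * lam / β) * q := by
          refine Finset.sum_le_sum fun o _ => (EX_dvr μ hqr hS o).trans ?_
          have := mul_le_mul_of_nonneg_right haA hq0.le
          linarith
      _ = _ := by rw [Finset.sum_const, Finset.card_univ, nsmul_eq_mul, hM]
  have cS : Continuous fun U : Ed (e + 3) (2 * m) → G =>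
      ∑ o : OO e q, dv L (rect U (yR m o) 0 1 (rr o) (rv o)) ^ 2 :=
    continuous_finsetSum _ fun o _ => dvr_cont o
  obtain ⟨K, hK⟩ : ∃ K : ℝ, K = kO e j q := ⟨_, rfl⟩
  have hK0 : 0 ≤ K := by rw [hK]; unfold kO; positivity
  have e1 : (fun U : Ed (e + 3) (2 * m) → G => Su eT L j q (y0 e m) U) = fun U =>
      (M⁻¹ ^ 2 * (2 * K)) *
        (∑ o : OO e q, dv L (rect U (yR m o) 0 1 (rr o) (rv o)) ^ 2) +
      M⁻¹ ^ 2 * (8 * (M * (48 * (q : ℝ) ^ 4))) := by
    funext U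
    unfold Su
    simp only [ntm_rect hqr]
    rw [← hM, ← hK]
    push_cast
    ring
  have cS' : Continuous fun U : Ed (e + 3) (2 * m) → G =>
      (M⁻¹ ^ 2 * (2 * K)) *
        (∑ o : OO e q, dv L (rect U (yR m o) 0 1 (rr o) (rv o)) ^ 2) := continuous_const.mul cS
  rw [e1, EX_add μ cS' continuous_const, EX_smul, EX_const]
  have h6 : (M⁻¹ ^ 2 * (2 * K)) * EX μ L β (fun U : Ed (e + 3) (2 * m) → G =>
      ∑ o : OO e q, dv L (rect U (yR m o) 0 1 (rr o) (rv o)) ^ 2) ≤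
      (M⁻¹ ^ 2 * (2 * K)) * (M * (4 * (A * lam / β) * q)) :=
    mul_le_mul_of_nonneg_left hS' (by positivity)
  obtain ⟨kk, hkk⟩ : ∃ kk : ℝ, kk = 4 * (8 * (j + 1) + 3 * (e + 3)) := ⟨_, rfl⟩
  have hKM : K = kk * M := by
    rw [hK, hMq, hkk]
    unfold kO
    push_cast
    ring
  have hkk0 : 0 ≤ kk := by rw [hkk]; positivity
  have hkk1 : kk ≤ 20 * (e + 3) * (j + 2) := by
    rw [hkk]
    nlinarith
  obtain ⟨P, hP⟩ : ∃ P : ℝ, P = (q : ℝ) ^ (e + 1) := ⟨_, rfl⟩
  have hP0 : 0 < P := by rw [hP]; positivity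
  have hMP : M = P * (q : ℝ) ^ 3 := by rw [hMq, hP]; ring
  rw [← hP] at hqβ ⊢
  push_cast at hqβ
  have s1 : (M⁻¹ ^ 2 * (2 * K)) * (M * (4 * (A * lam / β) * q)) =
      8 * A * (kk * lam) * (q / β) := by
    rw [hKM]
    field_simp
    ring
  have s2 : M⁻¹ ^ 2 * (8 * (M * (48 * (q : ℝ) ^ 4))) = 384 * (q / P) := by
    rw [hMP]
    field_simp
    ring
  have t1 : kk * lam * (q / β) ≤ 20 * (e + 3) * (q / P) := by
    have u1 : kk * lam ≤ 20 * (e + 3) * ((j + 2) * lam) := by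
      calc kk * lam ≤ 20 * (e + 3) * (j + 2) * lam :=
            mul_le_mul_of_nonneg_right hkk1 (by linarith)
        _ = _ := by ring
    have u2 : (j + 2) * lam ≤ β / P := by
      rw [le_div_iff₀ hP0]
      calc (j + 2) * lam * P = P * ((j + 2) * lam) := by ring
        _ ≤ β := hqβ
    calc kk * lam * (q / β) ≤ 20 * (e + 3) * (β / P) * (q / β) :=
          mul_le_mul_of_nonneg_right (u1.trans (mul_le_mul_of_nonneg_left u2 (by positivity)))
            (by positivity)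
      _ = _ := by field_simp
  rw [s1] at h6
  rw [s2]
  have u1 : 8 * A * (kk * lam) * (q / β) ≤ 160 * (e + 3) * A * (q / P) := by
    calc 8 * A * (kk * lam) * (q / β) = 8 * A * (kk * lam * (q / β)) := by ring
      _ ≤ 8 * A * (20 * (e + 3) * (q / P)) := mul_le_mul_of_nonneg_left t1 (by positivity)
      _ = _ := by ring
  unfold CS
  rw [add_mul]
  linarith

/-- the expectation of the bound of the gradient -/
lemma EX_Hu {j : ℕ} (hβ : 0 < β) (hqr : q = 2 ^ (j + 1)) {a0 A lam : ℝ}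
    (hA : 1 ≤ A) (hlam : 1 ≤ lam) (haA : a0 ^ 2 ≤ A * lam / β)
    (hS : SB μ L (e + 3) m β (fun k => a0 * Real.sqrt (2 ^ k)) (j + 1 + 3))
    (hqβ : (q : ℝ) ^ (e + 1) * ((j + 2 : ℕ) * lam) ≤ β) {K : ℕ} (hK : 1 ≤ K) (a : ℝ) :
    EX μ L β (fun U : Ed (e + 3) (2 * m) → G => Hu eT L j q K a U) ≤
      n * ((K : ℝ)⁻¹ * a ^ 2 * (CS e A * (q / (q : ℝ) ^ (e + 1)))) := by
  have h0 := EX_Su μ (L := L) hβ hqr hA hlam haA hS hqβ
  have hK0 : (0 : ℝ) < K := by exact_mod_cast hK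
  unfold Hu
  rw [EX_smul, EX_smul, EX_fsum μ (Finset.range K) fun k => Su_cont j q _]
  have h1 : ∀ k, EX μ L β (fun U : Ed (e + 3) (2 * m) → G =>
      Su eT L j q ((2 * k + 1) • eT (Fin.last (e + 2))) U) =
      EX μ L β (fun U : Ed (e + 3) (2 * m) → G => Su eT L j q (y0 e m) U) := by
    intro k
    simp only [Su_zk]
    exact EX_tr μ (zk e m k) (fun U : Ed (e + 3) (2 * m) → G => Su eT L j q (y0 e m) U)
  simp only [h1]
  rw [Finset.sum_const, Finset.card_range, nsmul_eq_mul]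
  refine mul_le_mul_of_nonneg_left ?_ (Nat.cast_nonneg n)
  have h2 : ((K : ℝ)⁻¹ * a) ^ 2 * (K * EX μ L β (fun U : Ed (e + 3) (2 * m) → G =>
      Su eT L j q (y0 e m) U)) = (K : ℝ)⁻¹ * a ^ 2 * EX μ L β (fun U : Ed (e + 3) (2 * m) → G =>
      Su eT L j q (y0 e m) U) := by
    field_simp
  rw [h2]
  exact mul_le_mul_of_nonneg_left h0 (by positivity)

end dir

end

end Pool.Agent.MG990.L681
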