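import Mathlib
import Pool.Agent.N681.LG.Vr

/-!
# The variance and the Dirichlet form in finite volume: the choice of the parameters
-/

open MeasureTheory Matrix Filter
open scoped Matrix.Norms.Frobenius Topology ContDiff
open Pool.Agent.H906R3.YM hiding Pl
open Pool.Agent.W793.YM Pool.Agent.TH618.YM Pool.Agent.Y14
open Pool.Agent.R990 (nm)

namespace Pool.Agent.MG990.L681

set_option linter.unusedSectionVars false
set_option linter.unusedVariables false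

noncomputable section

variable {G : Type*} [Group G] [TopologicalSpace G] [IsTopologicalGroup G] [CompactSpace G]
  [SecondCountableTopology G] [MeasurableSpace G] [BorelSpace G] (μ : Measure G)
  [IsProbabilityMeasure μ] [μ.IsMulLeftInvariant] [μ.IsMulRightInvariant] [μ.IsInvInvariant]
  {N n : ℕ} {L : LD G N n}

/-- the number of the time slices -/
def Kn (C6 : ℝ) (q : ℕ) : ℕ := ⌊(q : ℝ) / C6⌋₊

lemma Kn_spec {C6 : ℝ} (hC6 : 1 ≤ C6) {q : ℕ} (hq : C6 ≤ q) :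
    1 ≤ Kn C6 q ∧ Kn C6 q ≤ q ∧ (Kn C6 q : ℝ) ≤ q / C6 ∧ (q : ℝ) ≤ 2 * C6 * Kn C6 q := by
  have h0 : 0 < C6 := by linarith
  have h1 : (1 : ℝ) ≤ q / C6 := by rw [le_div_iff₀ h0]; linarith
  have h2 : 1 ≤ Kn C6 q := by
    unfold Kn
    exact (Nat.one_le_floor_iff _).2 h1
  have h3 : (Kn C6 q : ℝ) ≤ q / C6 := Nat.floor_le (by positivity)
  have h4 : (q : ℝ) / C6 < Kn C6 q + 1 := Nat.lt_floor_add_one _
  have h5 : (1 : ℝ) ≤ Kn C6 q := by exact_mod_cast h2
  refine ⟨h2, ?_, h3, ?_⟩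
  · have h6 : (q : ℝ) / C6 ≤ q := div_le_self (Nat.cast_nonneg q) hC6
    have h7 : (Kn C6 q : ℝ) ≤ q := h3.trans h6
    exact_mod_cast h7
  · rw [div_lt_iff₀ h0] at h4
    nlinarith

/-- **variance and Dirichlet form** -/
theorem fin_main (hn : 1 ≤ n) (hN : 1 ≤ N) (e : ℕ) {C0 : ℝ} (hC0 : 0 < C0)
    (hcar : ∀ g : G, dv L g ^ 2 ≤ ∑ a, fi L a g ^ 2 + C0 * dv L g ^ 4) :
    ∃ c2 C6 cv η CG : ℝ, 0 < c2 ∧ 1 ≤ C6 ∧ 0 < cv ∧ 0 < η ∧ 0 < CG ∧
    ∀ j q : ℕ, q = 2 ^ (j + 1) → C6 ≤ q → ∀ β : ℝ, 0 < β →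
      c2 * ((q : ℝ) ^ kap e * ((j : ℝ) + 5) ^ nul e) ≤ β → ∀ (m : ℕ) [NeZero m],
      5 * (e + 3) * q < 2 * m → 32 * q ≤ 2 * m →
      cv ≤ EX μ L β (fun U : Ed (e + 3) (2 * m) → G =>
          Fu eT L (j + 1) q (Kn C6 q) (nc e q β) η U ^ 2) -
        EX μ L β (fun U : Ed (e + 3) (2 * m) → G =>
          Fu eT L (j + 1) q (Kn C6 q) (nc e q β) η U) ^ 2 ∧
      EX μ L β (fun U : Ed (e + 3) (2 * m) → G =>
        Hu eT L j q (Kn C6 q) (nc e q β) U) ≤ CG * (β / (q : ℝ) ^ 2) := by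
  have hN1 : (1 : ℝ) ≤ N := by exact_mod_cast hN
  have hn1 : (1 : ℝ) ≤ n := by exact_mod_cast hn
  obtain ⟨A, hA⟩ : ∃ A : ℝ, A = (30000 * N) ^ 2 := ⟨_, rfl⟩
  have hA1 : 1 ≤ A := by rw [hA]; nlinarith
  obtain ⟨c2, C4, cv, hc2, hC4, hcv, htr⟩ := MG990.trunc' μ (L := L) hn hN e hC0 hcar
  obtain ⟨C6, hC6⟩ : ∃ C6 : ℝ, C6 = 8 * C4 + 1 := ⟨_, rfl⟩
  have hC61 : 1 ≤ C6 := by rw [hC6]; linarith
  have hC60 : 0 < C6 := by linarith
  have hCS : 0 < CS e A := by
    unfold CS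
    have : (0 : ℝ) ≤ e := Nat.cast_nonneg e
    positivity
  refine ⟨c2 + 1, C6, cv / 16, Real.sqrt cv / 4, n * (2 * C6 * CS e A), by positivity, hC61,
    by positivity, by positivity, by positivity,
    fun j q hqr hq' β hβ0 hqβ m _ hm hm32 => ?_⟩
  have hq : 1 ≤ q := by rw [hqr]; exact Nat.one_le_two_pow
  have hq1 : (1 : ℝ) ≤ q := by exact_mod_cast hq
  have hq0 : (0 : ℝ) < q := by linarith
  have hj0 : (0 : ℝ) ≤ j := Nat.cast_nonneg j
  have he0 : (0 : ℝ) ≤ e := Nat.cast_nonneg e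
  obtain ⟨hK1, hKq, hKC, hKC'⟩ := Kn_spec hC61 hq'
  obtain ⟨K, hK⟩ : ∃ K, K = Kn C6 q := ⟨_, rfl⟩
  rw [← hK] at hK1 hKq hKC hKC' ⊢
  have hKr : (1 : ℝ) ≤ K := by exact_mod_cast hK1
  obtain ⟨Q, hQ⟩ : ∃ Q : ℝ, Q = (q : ℝ) ^ kap e * ((j : ℝ) + 5) ^ nul e := ⟨_, rfl⟩
  rw [← hQ] at hqβ
  have hQ0 : 0 < Q := by rw [hQ]; positivity
  have hqβ1 : c2 * Q ≤ β := by linarith
  have hqβ2 : Q ≤ β := by
    have : 0 ≤ c2 * Q := by positivity
    linarith
  have ha := nc_pos (e := e) hq hβ0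
  obtain ⟨a, haa⟩ : ∃ a, a = nc e q β := ⟨_, rfl⟩
  rw [← haa] at ha ⊢
  -- the correlations
  have hC4q : C4 ≤ q := by linarith
  obtain ⟨v0, v1⟩ := htr j q hqr hC4q β hβ0 (by rw [← hQ]; exact hqβ1) m hm hm32
  rw [← haa] at v0 v1
  obtain ⟨O, hO⟩ : ∃ O : (Ed (e + 3) (2 * m) → G) → ℝ, O = fun U => a * Fq L (j + 1) q U :=
    ⟨_, rfl⟩
  have hOc : Continuous O := by rw [hO]; exact continuous_const.mul Fq_cont
  obtain ⟨V, hV⟩ : ∃ V : ℝ, V = EX μ L β (fun U => O U ^ 2) - EX μ L β O ^ 2 := ⟨_, rfl⟩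
  have hV' : Zt μ L β (fun U : Ed (e + 3) (2 * m) → G => (a * Fq L (j + 1) q U) *
          (a * Fq L (j + 1) q U)) / Zt μ L β (fun _ : Ed (e + 3) (2 * m) → G => 1) -
        (Zt μ L β (fun U : Ed (e + 3) (2 * m) → G => a * Fq L (j + 1) q U) /
          Zt μ L β (fun _ : Ed (e + 3) (2 * m) → G => 1)) ^ 2 = V := by
    rw [hV, hO]
    simp only [pow_two]
    rfl
  rw [hV'] at v0 v1
  have hV0 : 0 ≤ V := hcv.le.trans v0
  obtain ⟨T, hT⟩ : ∃ T : ℕ → (Ed (e + 3) (2 * m) → G) → ℝ, T = fun k U =>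
    a * ‖phi eT L (j + 1) q U ((2 * k + 1) • eT (Fin.last (e + 2)))‖ := ⟨_, rfl⟩
  have hTc : ∀ k, Continuous (T k) := fun k => by
    rw [hT]
    exact continuous_const.mul (phi_cont _).norm
  have hTO : ∀ k U, T k U = O (tr (sv (Fin.last (e + 2)) ((2 * (k + 1) - 1 : ℕ) :
      ZMod (2 * m))) U) := by
    intro k U
    rw [hT, hO]
    simp only
    rw [Fq_tr]
    have h1 : (sv (Fin.last (e + 2)) ((2 * (k + 1) - 1 : ℕ) : ZMod (2 * m)) :
        Fin (e + 3) → ZMod (2 * m)) = (2 * k + 1) • eT (Fin.last (e + 2)) := by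
      have h2 : 2 * (k + 1) - 1 = 2 * k + 1 := by omega
      rw [h2]
      funext i
      unfold sv eT
      by_cases h : i = Fin.last (e + 2)
      · subst h
        simp
      · simp [h]
    rw [h1]
  have hm0 : K ≤ m := by omega
  constructor
  · have hvar := var_avg μ (L := L) (β := β) (O := O) hOc hK1 (T := T)
      (g := fun k U => gs a (Real.sqrt cv / 4) (phi eT L (j + 1) q U
        ((2 * k + 1) • eT (Fin.last (e + 2))))) hTc
      (fun k => (gs_cont a _).comp (phi_cont _)) (η := Real.sqrt cv / 4) (V := V)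
      (by positivity) (fun k U => by
        rw [hT]
        exact gs_close ha.le (by positivity) _) hV ?_ ?_
    · have h1 : cv / 16 ≤ V / 16 := by linarith
      exact h1.trans hvar
    · have h1 : 4 * (Real.sqrt cv / 4) = Real.sqrt cv := by ring
      rw [h1, Real.sq_sqrt hcv.le]
      exact v0
    · intro k hk
      have h1 := v1 (k + 1) (by omega) (by omega)
      have h2 := en_cov μ (L := L) (β := β) (O := O) (T := T k) hOc (hTc k) (δ := C4 / q * (k + 1))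
        (by
          simp only [hTO]
          exact EX_tr μ _ (fun U => O U ^ 2))
        (by
          rw [← hV]
          have h3 : EX μ L β (fun U => O U * T k U) - EX μ L β O ^ 2 =
            Zt μ L β (fun U : Ed (e + 3) (2 * m) → G => (a * Fq L (j + 1) q U) *
          (a * Fq L (j + 1) q
            (tr (sv (Fin.last (e + 2)) ((2 * (k + 1) - 1 : ℕ) : ZMod (2 * m))) U))) /
          Zt μ L β (fun _ : Ed (e + 3) (2 * m) → G => 1) -
        (Zt μ L β (fun U : Ed (e + 3) (2 * m) → G => a * Fq L (j + 1) q U) /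
          Zt μ L β (fun _ : Ed (e + 3) (2 * m) → G => 1)) ^ 2 := by
            simp only [hTO]
            rw [hO]
            rfl
          rw [h3]
          push_cast at h1
          exact h1)
        (by rw [← hV]; exact hV0)
      rw [← hV] at h2
      refine h2.trans ?_
      have h4 : 2 * (C4 / q * (k + 1)) ≤ 1 / 4 := by
        have h5 : ((k : ℝ) + 1) ≤ q / C6 := by
          have h6 : (((k + 1 : ℕ)) : ℝ) ≤ K := by exact_mod_cast hk
          push_cast at h6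
          linarith
        have h7 : C4 / q * ((k : ℝ) + 1) ≤ C4 / q * (q / C6) :=
          mul_le_mul_of_nonneg_left h5 (by positivity)
        have h8 : C4 / q * (q / C6) = C4 / C6 := by field_simp
        have h9 : C4 / C6 ≤ 1 / 8 := by
          rw [div_le_div_iff₀ hC60 (by norm_num), hC6]
          linarith
        linarith
      calc 2 * (C4 / q * (k + 1)) * V ≤ 1 / 4 * V := mul_le_mul_of_nonneg_right h4 hV0
        _ = V / 4 := by ring
  · -- the Dirichlet form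
    obtain ⟨lam, hlam⟩ : ∃ lam : ℝ, lam = lm e (j + 1) := ⟨_, rfl⟩
    have hlam1 : 1 ≤ lam := by rw [hlam]; exact lm_ge _ _
    obtain ⟨a0, ha0⟩ : ∃ a0 : ℝ, a0 = 30000 * N * Real.sqrt lam / Real.sqrt β := ⟨_, rfl⟩
    have haA : a0 ^ 2 ≤ A * lam / β := by
      rw [ha0, div_pow, mul_pow, Real.sq_sqrt (by linarith), Real.sq_sqrt hβ0.le, hA]
    have hS : SB μ L (e + 3) m β (fun k => a0 * Real.sqrt (2 ^ k)) (j + 1 + 3) := by
      rw [ha0, hlam]
      exact SB_all μ hN hβ0 (by rw [← hqr]; exact hm32)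
    have hke : (q : ℝ) ^ (e + 1) ≤ (q : ℝ) ^ kap e := pow_le_pow_right₀ hq1 (le_max_right _ _)
    have l1 : ((j : ℝ) + 5) * lam ≤ ((j : ℝ) + 5) ^ nul e := by
      rw [hlam]
      unfold lm nul
      split_ifs with h
      · push_cast
        nlinarith
      · rw [pow_one, mul_one]
    have b3 : (q : ℝ) ^ (e + 1) * ((j + 2 : ℕ) * lam) ≤ Q := by
      rw [hQ]
      refine mul_le_mul hke (le_trans ?_ l1) (by positivity) (by positivity)
      refine mul_le_mul_of_nonneg_right ?_ (by linarith)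
      push_cast
      linarith
    refine (EX_Hu μ (L := L) hβ0 hqr hA1 hlam1 haA hS (b3.trans hqβ2) hK1 a).trans ?_
    have ha2 : a ^ 2 = β * (q : ℝ) ^ (e + 1) / (q : ℝ) ^ 2 := by
      rw [haa]
      unfold nc
      rw [Real.sq_sqrt (by positivity)]
    have h1 : (K : ℝ)⁻¹ ≤ 2 * C6 / q := by
      rw [inv_eq_one_div, div_le_div_iff₀ (by positivity) hq0]
      linarith
    have e9 : (n : ℝ) * (2 * C6 * CS e A) * (β / (q : ℝ) ^ 2) =
        n * (2 * C6 * CS e A * (β / (q : ℝ) ^ 2)) := by ring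
    rw [e9]
    refine mul_le_mul_of_nonneg_left ?_ (Nat.cast_nonneg n)
    rw [ha2]
    calc (K : ℝ)⁻¹ * (β * (q : ℝ) ^ (e + 1) / (q : ℝ) ^ 2) *
          (CS e A * (q / (q : ℝ) ^ (e + 1))) =
          (K : ℝ)⁻¹ * (CS e A * (β * q / (q : ℝ) ^ 2)) := by field_simp
      _ ≤ 2 * C6 / q * (CS e A * (β * q / (q : ℝ) ^ 2)) :=
          mul_le_mul_of_nonneg_right h1 (by positivity)
      _ = 2 * C6 * CS e A * (β / (q : ℝ) ^ 2) := by field_simp

end

end Pool.Agent.MG990.L681
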