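import Mathlib
import Pool.Agent.N681.LG.Defs
import Pool.Agent.N681.LG.Avg
import Pool.Agent.Y14.Main

/-!
# Smoothness of the observable
-/

open MeasureTheory Matrix Filter
open scoped Matrix.Norms.Frobenius Topology ContDiff

namespace Pool.Agent.MG990.L681.Wilson

set_option linter.unusedSectionVars false
set_option linter.unusedVariables false

noncomputable section

open Pool.Agent Pool.Agent.H906R3 Pool.Agent.W793 Pool.Agent.TH618
open Pool.Agent.Y14.Wilson Pool.Agent.N681.LG

variable {N n : ℕ} {G : Subgroup (UU N)}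

section clo

variable {E : Type*} {W W' : Type*} [NormedAddCommGroup W] [NormedSpace ℝ W]
  [NormedAddCommGroup W'] [NormedSpace ℝ W']

/-- smooth functions of finitely many link variables with values in a normed space -/
def SmW (F : (E → G) → W) : Prop :=
  ∃ (S : Finset E) (Φ : (S → Mt N) → W), ContDiff ℝ ∞ Φ ∧ ∀ U, F U = Φ fun e => Y14.Wilson.mt (U e)

lemma SmW_const (c : W) : SmW (fun _ : E → G => c) :=
  ⟨∅, fun _ => c, contDiff_const, fun _ => rfl⟩

lemma SmW_coord (e : E) : SmW (fun U : E → G => Y14.Wilson.mt (U e)) :=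
  ⟨{e}, fun M => M ⟨e, Finset.mem_singleton_self e⟩, contDiff_apply ℝ (Mt N) _, fun _ => rfl⟩

lemma SmW.comp {F : (E → G) → W} (hF : SmW F) {g : W → W'} (hg : ContDiff ℝ ∞ g) :
    SmW (fun U => g (F U)) := by
  obtain ⟨S, Φ, hΦ, h⟩ := hF
  exact ⟨S, fun M => g (Φ M), hg.comp hΦ, fun U => congrArg g (h U)⟩

lemma SmW.pair {F : (E → G) → W} {F' : (E → G) → W'} (hF : SmW F) (hF' : SmW F') :
    SmW (fun U => (F U, F' U)) := by
  classical
  obtain ⟨S, Φ, hΦ, h⟩ := hF
  obtain ⟨S', Φ', hΦ', h'⟩ := hF'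
  have h1 : ContDiff ℝ ∞ fun (M : ((S ∪ S' : Finset E) → Mt N)) =>
      (fun e : S => M ⟨e, Finset.mem_union_left _ e.2⟩) :=
    contDiff_pi.2 fun e => contDiff_apply ℝ (Mt N) _
  have h2 : ContDiff ℝ ∞ fun (M : ((S ∪ S' : Finset E) → Mt N)) =>
      (fun e : S' => M ⟨e, Finset.mem_union_right _ e.2⟩) :=
    contDiff_pi.2 fun e => contDiff_apply ℝ (Mt N) _
  exact ⟨S ∪ S', fun M => (Φ fun e => M ⟨e, Finset.mem_union_left _ e.2⟩,
    Φ' fun e => M ⟨e, Finset.mem_union_right _ e.2⟩), (hΦ.comp h1).prodMk (hΦ'.comp h2),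
    fun U => Prod.ext (h U) (h' U)⟩

lemma SmW.add {F F' : (E → G) → W} (hF : SmW F) (hF' : SmW F') :
    SmW (fun U => F U + F' U) := (hF.pair hF').comp (contDiff_fst.add contDiff_snd)

lemma SmW.sub {F F' : (E → G) → W} (hF : SmW F) (hF' : SmW F') :
    SmW (fun U => F U - F' U) := (hF.pair hF').comp (contDiff_fst.sub contDiff_snd)

lemma SmW.mul {F F' : (E → G) → Mt N} (hF : SmW F) (hF' : SmW F') :
    SmW (fun U => F U * F' U) := (hF.pair hF').comp (contDiff_fst.mul contDiff_snd)

lemma SmW.sum {ι : Type*} (s : Finset ι) {F : ι → (E → G) → W} (hF : ∀ i, SmW (F i)) :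
    SmW (fun U => ∑ i ∈ s, F i U) := by
  classical
  induction s using Finset.induction_on with
  | empty => simpa using SmW_const (0 : W)
  | insert a s ha ih =>
    simp only [Finset.sum_insert ha]
    exact (hF a).add ih

lemma SmW.const_smul {F : (E → G) → W} (hF : SmW F) (c : ℝ) : SmW (fun U => c • F U) :=
  hF.comp (contDiff_const.smul contDiff_id)

end clo

section obs

variable (B : LieBasis G n) {e : ℕ} {A : Type*} [AddCommGroup A] {u : Fin (e + 3) → A}

lemma rho_mt (g : G) : (ld B).rho g = Y14.Wilson.mt g := rfl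

lemma SmW_tp (x : A) (w : List (Fin (e + 3))) :
    SmW (fun U : A × Fin (e + 3) → G => (ld B).rho (Y14.tp u U x w)) := by
  induction w generalizing x with
  | nil => exact SmW_const _
  | cons i w ih =>
    have h1 : (fun U : A × Fin (e + 3) → G => (ld B).rho (Y14.tp u U x (i :: w))) =
        fun U => Y14.Wilson.mt (U (x, i)) * (ld B).rho (Y14.tp u U (x + u i) w) := by
      funext U
      rw [Y14.tp_cons, map_mul]
      rfl
    rw [h1]
    exact (SmW_coord (x, i)).mul (ih (x + u i))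

lemma SmW_pp (x y : A) (w w' : List (Fin (e + 3))) :
    SmW (fun U : A × Fin (e + 3) → G => MG990.pp u (ld B) U x y w w') :=
  (SmW_tp B x w).mul ((SmW_tp B y w').comp (YM.ctL N).contDiff)

lemma SmW_phi (r q : ℕ) (x : A) :
    SmW (fun U : A × Fin (e + 3) → G => MG990.phi u (ld B) r q U x) :=
  (SmW.sum (Finset.univ : Finset (Y14.OO e q)) fun o =>
    (SmW_pp B x (x + (2 * q) • u 0) (MG990.PA r o) (MG990.PB r o)).sub
      (SmW_pp B x (x + (2 * q) • u 0) (MG990.QA r o) (MG990.QB r o))).const_smul _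

/-- the observable is smooth -/
lemma Fu_smooth (r q K : ℕ) (a : ℝ) {η : ℝ} (hη : 0 < η) :
    Smooth (fun U : A × Fin (e + 3) → G => Fu u (ld B) r q K a η U) := by
  have h1 : SmW (fun U : A × Fin (e + 3) → G => (K : ℝ)⁻¹ • ∑ k ∈ Finset.range K,
      gs a η (MG990.phi u (ld B) r q U ((2 * k + 1) • u (Fin.last (e + 2))))) :=
    (SmW.sum (Finset.range K) fun k =>
      (SmW_phi B r q ((2 * k + 1) • u (Fin.last (e + 2)))).comp (gs_smooth a hη)).const_smul _
  exact h1

end obs

end

end Pool.Agent.MG990.L681.Wilson
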