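import Mathlib
import Pool.Agent.N681.LG.Smo
import Pool.Agent.N681.LG.Fp
import Pool.Agent.R990.MG.Main

/-!
# The gap of the Langevin dynamics at weak coupling
-/

open MeasureTheory Matrix Filter
open scoped Matrix.Norms.Frobenius Topology ContDiff

namespace Pool.Agent.MG990.L681.Wilson

set_option linter.unusedSectionVars false
set_option linter.unusedVariables false

noncomputable section

open Pool.Agent Pool.Agent.H906R3 Pool.Agent.W793 Pool.Agent.TH618
open Pool.Agent.Y14.Wilson Pool.Agent.N681.LG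

variable {N n d D : ℕ} {G : Subgroup (UU N)}

/-- unit vectors of the infinite lattice -/
def uz (e : ℕ) (k : Fin (e + 3)) : Fin (e + 3) → ℤ := Pi.single k 1

section loc

variable [CompactSpace G] [SecondCountableTopology G] [MeasurableSpace G] [BorelSpace G]
  (B : LieBasis G n) {e : ℕ}

omit [CompactSpace G] [SecondCountableTopology G] [MeasurableSpace G] [BorelSpace G] in
lemma uz_pos {q K R : ℕ} (hR : 7 * q < R) (hK : 2 * K < R) {k : ℕ} (hk : k < K)
    {w1 : List (Fin (e + 3))} (hw : ∀ j, w1.count j ≤ 7 * q)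
    (hl : w1.count (Fin.last (e + 2)) = 0) (i : Fin (e + 3)) :
    0 ≤ ((2 * k + 1) • uz e (Fin.last (e + 2)) + Y14.dsp (uz e) w1) i ∧
      ((2 * k + 1) • uz e (Fin.last (e + 2)) + Y14.dsp (uz e) w1) i < R := by
  have h1 : (Y14.dsp (uz e) w1) i = (w1.count i : ℤ) := dspZ w1 i
  have h2 := hw i
  rw [Pi.add_apply, h1]
  by_cases hi : i = Fin.last (e + 2)
  · subst hi
    have h3 : ((2 * k + 1) • uz e (Fin.last (e + 2))) (Fin.last (e + 2)) =
        ((2 * k + 1 : ℕ) : ℤ) := by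
      unfold uz
      simp
    rw [h3, hl]
    constructor
    · positivity
    · push_cast
      omega
  · have h3 : ((2 * k + 1) • uz e (Fin.last (e + 2))) i = 0 := by
      unfold uz
      simp [hi]
    rw [h3, zero_add]
    constructor
    · exact Int.natCast_nonneg _
    · omega

lemma Fu_local {q r K R : ℕ} (hqr : q = 2 ^ r) (hR : 7 * q < R) (hK : 2 * K < R) (a η : ℝ) :
    IsLocal R (fun V : LinkZ (e + 2 + 1) → G => Fu (uz e) (ld B) r q K a η V) where
  cont := Fu_cont r q K a η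
  inv γ V := Fu_gauge hqr K a η γ V
  loc V V' h := Fu_congr hqr K a η fun k hk w1 hw1 hl i _ =>
    h _ fun j => uz_pos hR hK hk hw1 hl j

lemma Hu_local {q j K R : ℕ} (hqr : q = 2 ^ (j + 1)) (hR : 7 * q < R) (hK : 2 * K < R) (a : ℝ) :
    IsLocal R (fun V : LinkZ (e + 2 + 1) → G => Hu (uz e) (ld B) j q K a V) where
  cont := Hu_cont j q K a
  inv γ V := Hu_gauge hqr K a γ V
  loc V V' h := Hu_congr hqr K a fun k hk w1 hw1 hl i _ =>
    h _ fun j => uz_pos hR hK hk hw1 hl j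

lemma local_sq {R : ℕ} {F : (LinkZ d → G) → ℝ} (hF : IsLocal R F) :
    IsLocal R fun V => F V ^ 2 where
  cont := hF.cont.pow 2
  inv γ V := by rw [hF.inv]
  loc V V' h := by rw [hF.loc V V' h]

omit [CompactSpace G] [SecondCountableTopology G] [MeasurableSpace G] [BorelSpace G] in
lemma uz_prj {m : ℕ} (i : Fin (e + 3)) : prj (e + 3) (2 * m) (uz e i) = YM.eT i := by
  funext j
  show ((Pi.single i 1 : Fin (e + 3) → ℤ) j : ZMod (2 * m)) = YM.eT i j
  by_cases h : j = i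
  · subst h; simp [YM.eT]
  · simp [YM.eT, h]

lemma Fu_lf {q r K m : ℕ} (a η : ℝ) (U : YM.Ed (e + 3) (2 * m) → G) :
    Fu (uz e) (ld B) r q K a η (YM.lf U) = Fu YM.eT (ld B) r q K a η U :=
  Fu_map K a η (prj (e + 3) (2 * m)) uz_prj fun f => rfl

lemma Hu_lf {q j K m : ℕ} (a : ℝ) (U : YM.Ed (e + 3) (2 * m) → G) :
    Hu (uz e) (ld B) j q K a (YM.lf U) = Hu YM.eT (ld B) j q K a U :=
  Hu_map K a (prj (e + 3) (2 * m)) uz_prj fun f => rfl

end loc

section transfer

variable (B : LieBasis G n)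

/-- the links of the cube -/
def cube (d R : ℕ) : Finset (LinkZ d) :=
  (Fintype.piFinset fun _ : Fin d => Finset.Ico (0 : ℤ) R) ×ˢ (Finset.univ : Finset (Fin d))

lemma mem_cube {R : ℕ} {f : LinkZ d} : f ∈ cube d R ↔ ∀ i, 0 ≤ f.1 i ∧ f.1 i < R := by
  unfold cube
  rw [Finset.mem_product, Fintype.mem_piFinset]
  simp

/-- the projection of a link -/
def pl (d l : ℕ) (f : LinkZ d) : Link d l := (fun i => (f.1 i : ZMod l), f.2)

lemma rs_update {l R : ℕ} [NeZero l] (hl : R ≤ l) (V : LinkZ d → G) {f : LinkZ d}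
    (hf : f ∈ cube d R) (g : G) : YM.rs (l := l) (Function.update V f g) =
      Function.update (YM.rs (l := l) V) (pl d l f) g := by
  have hf' := mem_cube.1 hf
  funext f'
  have hv : ∀ i, (((f.1 i : ZMod l)).val : ℤ) = f.1 i := fun i => by
    obtain ⟨k, hk⟩ := Int.eq_ofNat_of_zero_le (hf' i).1
    have h2 : k < l := by have := (hf' i).2; omega
    rw [hk, Int.cast_natCast, ZMod.val_natCast_of_lt h2]
  by_cases h : f' = pl d l f
  · subst h
    rw [Function.update_self]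
    show Function.update V f g (fun i => (((f.1 i : ZMod l)).val : ℤ), f.2) = g
    have h1 : ((fun i => (((f.1 i : ZMod l)).val : ℤ), f.2) : LinkZ d) = f := by
      refine Prod.ext ?_ rfl
      funext i
      exact hv i
    rw [h1, Function.update_self]
  · rw [Function.update_of_ne h]
    show Function.update V f g (fun i => ((f'.1 i).val : ℤ), f'.2) =
      V (fun i => ((f'.1 i).val : ℤ), f'.2)
    rw [Function.update_of_ne]
    intro h1
    refine h ?_
    unfold pl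
    rw [← h1]
    refine Prod.ext ?_ rfl
    funext i
    show f'.1 i = ((((f'.1 i).val : ℕ) : ℤ) : ZMod l)
    rw [Int.cast_natCast, ZMod.natCast_zmod_val]

lemma pl_inj {l R : ℕ} [NeZero l] (hl : R ≤ l) : Set.InjOn (pl d l) (cube d R) := by
  intro f hf f' hf' h
  have h1 := mem_cube.1 hf
  have h2 := mem_cube.1 hf'
  have h22 : (pl d l f).2 = (pl d l f').2 := by rw [h]
  refine Prod.ext ?_ h22
  funext i
  have h3 : ((f.1 i : ℤ) : ZMod l) = ((f'.1 i : ℤ) : ZMod l) := congrFun (congrArg Prod.fst h) i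
  obtain ⟨k, hk⟩ := Int.eq_ofNat_of_zero_le (h1 i).1
  obtain ⟨k', hk'⟩ := Int.eq_ofNat_of_zero_le (h2 i).1
  have h4 := (h1 i).2
  have h5 := (h2 i).2
  rw [hk, hk', Int.cast_natCast, Int.cast_natCast] at h3
  have h6 := congrArg ZMod.val h3
  rw [ZMod.val_natCast_of_lt (by omega), ZMod.val_natCast_of_lt (by omega)] at h6
  rw [hk, hk', h6]

lemma local_rs {l R : ℕ} [NeZero l] (hl : R ≤ l) {F : (LinkZ d → G) → ℝ} (hF : IsLocal R F)
    (V : LinkZ d → G) : F V = F (per (YM.rs (l := l) V)) :=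
  hF.loc _ _ fun f hf => (YM.lf_rs V fun i => ⟨(hf i).1, lt_of_lt_of_le (hf i).2
    (by exact_mod_cast hl)⟩).symm

/-- the gradient in infinite volume -/
lemma grad_transfer {l R : ℕ} [NeZero l] (hl : R ≤ l) {F : (LinkZ d → G) → ℝ}
    (hF : IsLocal R F) (V : LinkZ d → G) :
    gradSq B F V ≤ gradSq B (fun U : Link d l → G => F (per U)) (YM.rs (l := l) V) := by
  classical
  have h1 : ∀ f ∈ cube d R, ∀ a : Fin n,
      (fun s : ℝ => F (move B f a s V)) =
      fun s : ℝ => F (per (move B (pl d l f) a s (YM.rs (l := l) V))) := by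
    intro f hf a
    funext s
    rw [local_rs hl hF (move B f a s V)]
    unfold move
    rw [rs_update hl V hf]
    have h2 : YM.rs (l := l) V (pl d l f) = V f := by
      have h3 := YM.lf_rs (l := l) V (e := f) fun i => ⟨(mem_cube.1 hf i).1,
        lt_of_lt_of_le (mem_cube.1 hf i).2 (by exact_mod_cast hl)⟩
      exact h3
    rw [h2]
  have h0 : ∀ f ∉ cube d R, (∑ a : Fin n, deriv (fun s : ℝ => F (move B f a s V)) 0 ^ 2) = 0 := by
    intro f hf
    refine Finset.sum_eq_zero fun a _ => ?_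
    have h2 : (fun s : ℝ => F (move B f a s V)) = fun _ => F V := by
      funext s
      refine hF.loc _ _ fun f' hf' => ?_
      unfold move
      rw [Function.update_of_ne]
      rintro rfl
      exact hf (mem_cube.2 hf')
    rw [h2, deriv_const]
    ring
  unfold gradSq
  rw [tsum_eq_sum h0, tsum_fintype]
  have h3 : ∀ f ∈ cube d R, (∑ a : Fin n, deriv (fun s : ℝ => F (move B f a s V)) 0 ^ 2) =
      ∑ a : Fin n, deriv (fun s : ℝ =>
        F (per (move B (pl d l f) a s (YM.rs (l := l) V)))) 0 ^ 2 := by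
    intro f hf
    refine Finset.sum_congr rfl fun a _ => ?_
    rw [h1 f hf a]
  rw [Finset.sum_congr rfl h3, ← Finset.sum_image (f := fun f : Link d l =>
    ∑ a : Fin n, deriv (fun s : ℝ => F (per (move B f a s (YM.rs (l := l) V)))) 0 ^ 2)
    (pl_inj hl)]
  exact Finset.sum_le_sum_of_subset_of_nonneg (Finset.subset_univ _) fun f _ _ =>
    Finset.sum_nonneg fun a _ => sq_nonneg _

lemma gradSq_nonneg {E : Type*} [DecidableEq E] (F : (E → G) → ℝ) (U : E → G) :
    0 ≤ gradSq B F U :=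
  tsum_nonneg fun f => Finset.sum_nonneg fun a _ => sq_nonneg _

end transfer

section fin

variable [CompactSpace G] [SecondCountableTopology G] [MeasurableSpace G] [BorelSpace G]
  (μ : Measure G) [IsProbabilityMeasure μ] [μ.IsHaarMeasure] (B : LieBasis G n)

/-- the bound of the gradient on the torus -/
lemma grad_torus {e j q m K : ℕ} [NeZero m] (hqr : q = 2 ^ (j + 1))
    (hqm : 5 * (e + 3) * q < 2 * m) (hK : K ≤ m) {a : ℝ} (ha : 0 ≤ a) (η : ℝ)
    (U : YM.Ed (e + 3) (2 * m) → G) :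
    gradSq B (fun U : Link (e + 3) (2 * m) → G => Fu YM.eT (ld B) (j + 1) q K a η U) U ≤
      Hu YM.eT (ld B) j q K a U := by
  unfold gradSq
  rw [tsum_fintype]
  exact grad_le (L := ld B) hqr hqm hK ha η U

/-- expectations of dominated functions -/
lemma expectT_le {l : ℕ} [NeZero l] {β : ℝ} {F H : (Link d l → G) → ℝ}
    (hH : Continuous H) (h0 : ∀ U, 0 ≤ F U) (h : ∀ U, F U ≤ H U) :
    expectT l μ β F ≤ YM.EX μ (ld B) β H := by
  have := right_inv μ
  have := inv_inv' μ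
  unfold expectT YM.EX YM.Zt
  simp only [one_mul]
  refine div_le_div_of_nonneg_right ?_ (integral_nonneg fun U => (Real.exp_pos _).le)
  refine integral_mono_of_nonneg (Eventually.of_forall fun U =>
    mul_nonneg (h0 U) (Real.exp_pos _).le)
    (YM.integrable_cont μ (hH.mul (YM.wt_contT (L := ld B) β))) (Eventually.of_forall fun U =>
    mul_le_mul_of_nonneg_right (h U) (Real.exp_pos _).le)

include B in
/-- **the finite volume estimates** -/
theorem finite_part (hG : IsClosed (G : Set (UU N))) (hn : 1 ≤ n) (hN : 1 ≤ N) (e : ℕ) :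
    ∃ C c β₀ : ℝ, 0 < C ∧ 0 < c ∧ 3 ≤ β₀ ∧ ∀ β : ℝ, β₀ ≤ β →
    ∃ (R : ℕ) (F H : (LinkZ (e + 2 + 1) → G) → ℝ), (R : ℝ) * rate (e + 2) β ≤ C ∧
      IsLocal R F ∧ Smooth F ∧ IsLocal R H ∧ (∀ V, gradSq B F V ≤ H V) ∧
      ∀ (l : ℕ) [NeZero l], Even l → R < l →
        Smooth (fun U : Link (e + 2 + 1) l → G => F (per U)) ∧
        (∀ (γ : (Fin (e + 2 + 1) → ZMod l) → G) (U : Link (e + 2 + 1) l → G),
          F (per (gaugeT γ U)) = F (per U)) ∧
        c ≤ expect l μ β (fun V => F V ^ 2) - expect l μ β F ^ 2 ∧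
        expectT l μ β (gradSq B fun U : Link (e + 2 + 1) l → G => F (per U)) ≤
          C * (β * rate (e + 2) β ^ 2) ∧
        expect l μ β H ≤ C * (β * rate (e + 2) β ^ 2) := by
  have := right_inv μ
  have := inv_inv' μ
  obtain ⟨C0, hC0, hcar⟩ := YM.cartan' (fm B) hG
  obtain ⟨c2, C6, cv, η, CG, hc2, hC6, hcv, hη, hCG, hmain⟩ :=
    fin_main μ (L := ld B) hn hN e hC0 hcar
  have hC60 : 0 < C6 := by linarith
  obtain ⟨β₀, C5, hβ₀, hC5, hsc⟩ := scale2 hc2 hC60 (κ := kap e) (ν := nul e)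
    (by unfold kap; omega)
  have hE : (0 : ℝ) ≤ e := Nat.cast_nonneg e
  obtain ⟨C, hC⟩ : ∃ C : ℝ, C = (5 * (e + 3) + 33) * C5 + CG * (C5 / C6) ^ 2 := ⟨_, rfl⟩
  have hC1 : (5 * (e + 3) + 33) * C5 ≤ C := by rw [hC]; linarith [show 0 < CG * (C5 / C6) ^ 2 by positivity]
  have hC2 : CG * (C5 / C6) ^ 2 ≤ C := by
    rw [hC]; linarith [show 0 < (5 * ((e : ℝ) + 3) + 33) * C5 by positivity]
  refine ⟨C, cv, β₀, by rw [hC]; positivity, hcv, hβ₀, fun β hβ => ?_⟩
  have hβ3 : 3 ≤ β := hβ₀.trans hβ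
  have hβ0 : 0 < β := by linarith
  obtain ⟨hx, hxp⟩ := rate_pow (e := e) hβ3
  obtain ⟨x, hxd⟩ : ∃ x, x = rate (e + 2) β := ⟨_, rfl⟩
  rw [← hxd] at hx hxp ⊢
  obtain ⟨j, hq2, hq3, hq4, hq5⟩ := hsc β hβ x hx hxp
  obtain ⟨q, hq⟩ : ∃ q : ℕ, q = 2 ^ (j + 1) := ⟨_, rfl⟩
  have hqR : ((2 : ℝ) ^ (j + 1)) = q := by rw [hq]; push_cast; ring
  rw [hqR] at hq2 hq3 hq4 hq5
  have hq1 : 1 ≤ q := by rw [hq]; exact Nat.one_le_two_pow
  have hq1r : (1 : ℝ) ≤ q := by exact_mod_cast hq1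
  have hq0 : (0 : ℝ) < q := by linarith
  obtain ⟨hK1, hKq, hKC, hKC'⟩ := Kn_spec hC6 hq2
  obtain ⟨a, ha⟩ : ∃ a, a = Y14.nc e q β := ⟨_, rfl⟩
  have ha0 : 0 < a := by rw [ha]; exact Y14.nc_pos hq1 hβ0
  obtain ⟨R, hR⟩ : ∃ R, R = 5 * (e + 3) * q + 32 * q + 1 := ⟨_, rfl⟩
  have hR7 : 7 * q < R := by rw [hR]; nlinarith
  have hRK : 2 * Kn C6 q < R := by rw [hR]; nlinarith
  obtain ⟨F, hF⟩ : ∃ F : (LinkZ (e + 2 + 1) → G) → ℝ, F = fun V =>
    Fu (uz e) (ld B) (j + 1) q (Kn C6 q) a η V := ⟨_, rfl⟩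
  obtain ⟨H, hH⟩ : ∃ H : (LinkZ (e + 2 + 1) → G) → ℝ, H = fun V =>
    Hu (uz e) (ld B) j q (Kn C6 q) a V := ⟨_, rfl⟩
  have hFl : IsLocal R F := by rw [hF]; exact Fu_local B hq hR7 hRK a η
  have hHl : IsLocal R H := by rw [hH]; exact Hu_local B hq hR7 hRK a
  have hFU : ∀ {m : ℕ} (U : YM.Ed (e + 3) (2 * m) → G), F (per U) =
      Fu YM.eT (ld B) (j + 1) q (Kn C6 q) a η U := fun {m} U => by
    rw [hF]
    exact Fu_lf B a η U
  have hHU : ∀ {m : ℕ} (U : YM.Ed (e + 3) (2 * m) → G), H (per U) =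
      Hu YM.eT (ld B) j q (Kn C6 q) a U := fun {m} U => by
    rw [hH]
    exact Hu_lf B a U
  have hrate : CG * (β / (q : ℝ) ^ 2) ≤ C * (β * x ^ 2) := by
    have h1 : 1 / (q : ℝ) ≤ C5 / C6 * x := by
      rw [div_mul_eq_mul_div, div_le_div_iff₀ hq0 hC60]
      rw [div_le_iff₀ hq0] at hq5
      linarith
    have h2 : (1 / (q : ℝ)) ^ 2 ≤ (C5 / C6 * x) ^ 2 := pow_le_pow_left₀ (by positivity) h1 2
    calc CG * (β / (q : ℝ) ^ 2) = CG * β * (1 / (q : ℝ)) ^ 2 := by ring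
      _ ≤ CG * β * (C5 / C6 * x) ^ 2 := mul_le_mul_of_nonneg_left h2 (by positivity)
      _ = CG * (C5 / C6) ^ 2 * (β * x ^ 2) := by ring
      _ ≤ C * (β * x ^ 2) := mul_le_mul_of_nonneg_right hC2 (by positivity)
  refine ⟨R, F, H, ?_, hFl, by rw [hF]; exact Fu_smooth B (j + 1) q (Kn C6 q) a hη, hHl, ?_, ?_⟩
  · rw [hR]
    push_cast
    refine le_trans ?_ hC1
    calc (5 * ((e : ℝ) + 3) * q + 32 * q + 1) * x ≤ ((5 * (e + 3) + 33) * q) * x :=
          mul_le_mul_of_nonneg_right (by linarith) hx.le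
      _ = (5 * (e + 3) + 33) * (q * x) := by ring
      _ ≤ (5 * (e + 3) + 33) * C5 := mul_le_mul_of_nonneg_left hq4 (by positivity)
  · intro V
    obtain ⟨m, hm⟩ : ∃ m, m = R := ⟨_, rfl⟩
    haveI : NeZero m := ⟨by omega⟩
    have hRl : R ≤ 2 * m := by omega
    have h1 := grad_transfer B hRl hFl V
    have h2 : (fun U : Link (e + 2 + 1) (2 * m) → G => F (per U)) =
        fun U => Fu YM.eT (ld B) (j + 1) q (Kn C6 q) a η U := by
      funext U
      exact hFU U
    rw [h2] at h1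
    refine h1.trans ((grad_torus B hq (by omega) (by omega) ha0.le η _).trans (le_of_eq ?_))
    rw [local_rs hRl hHl V]
    exact (hHU _).symm
  · intro l _ hl hRl
    obtain ⟨m, rfl⟩ := even_iff_two_dvd.1 hl
    haveI hm0 : NeZero m := ⟨by rintro rfl; omega⟩
    have hm1 : 5 * (e + 3) * q < 2 * m := by omega
    have hm2 : 32 * q ≤ 2 * m := by omega
    have hmK : Kn C6 q ≤ m := by omega
    obtain ⟨v1, v2⟩ := hmain j q hq hq2 β hβ0 hq3 m hm1 hm2
    rw [← ha] at v1 v2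
    have h2 : (fun U : Link (e + 2 + 1) (2 * m) → G => F (per U)) =
        fun U => Fu YM.eT (ld B) (j + 1) q (Kn C6 q) a η U := by
      funext U
      exact hFU U
    refine ⟨?_, ?_, ?_, ?_, ?_⟩
    · rw [h2]
      exact Fu_smooth B (j + 1) q (Kn C6 q) a hη
    · intro γ U
      rw [hFU, hFU]
      exact Fu_gauge hq (Kn C6 q) a η γ U
    · rw [expect_eq μ B, expect_eq μ B]
      have e1 : (fun U : YM.Ed (e + 2 + 1) (2 * m) → G => F (YM.lf U)) =
          fun U => Fu YM.eT (ld B) (j + 1) q (Kn C6 q) a η U := by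
        funext U
        exact hFU U
      have e2 : (fun U : YM.Ed (e + 2 + 1) (2 * m) → G => F (YM.lf U) ^ 2) =
          fun U => Fu YM.eT (ld B) (j + 1) q (Kn C6 q) a η U ^ 2 := by
        funext U
        exact congrArg (· ^ 2) (hFU U)
      rw [e1, e2]
      exact v1
    · rw [h2]
      refine le_trans (expectT_le μ B (Hu_cont j q (Kn C6 q) a) (fun U => gradSq_nonneg B _ U)
        fun U => grad_torus B hq hm1 hmK ha0.le η U) (v2.trans hrate)
    · rw [expect_eq μ B]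
      have e1 : (fun U : YM.Ed (e + 2 + 1) (2 * m) → G => H (YM.lf U)) =
          fun U => Hu YM.eT (ld B) j q (Kn C6 q) a U := by
        funext U
        exact hHU U
      rw [e1]
      exact v2.trans hrate

end fin

/-- the bound of the gap in dimension `D + 1` -/
def gb (D : ℕ) (β : ℝ) : ℝ :=
  if D = 2 then Real.log β ^ 2 else β * (Real.log β / β) ^ (2 / ((D : ℝ) - 1))

lemma gb_eq {e : ℕ} {β : ℝ} (hβ : 3 ≤ β) : β * rate (e + 2) β ^ 2 = gb (e + 2) β := by
  have hβ0 : 0 < β := by linarith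
  have hlog : 0 < Real.log β := Real.log_pos (by linarith)
  unfold rate gb
  split_ifs with h
  · rw [div_pow, Real.sq_sqrt hβ0.le]
    field_simp
  · have h1 : 0 < Real.log β / β := by positivity
    congr 1
    rw [← Real.rpow_natCast, ← Real.rpow_mul h1.le]
    congr 1
    push_cast
    ring

theorem main {N n D : ℕ} (G : Subgroup (UU N)) (hG : IsClosed (G : Set (UU N)))
    [MeasurableSpace G] [BorelSpace G] (μ : Measure G) [IsProbabilityMeasure μ] [μ.IsHaarMeasure]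
    (B : LieBasis G n) (hn : 1 ≤ n) (hD : 2 ≤ D) :
    ∃ C c β₀ : ℝ, 0 < C ∧ 0 < c ∧ 1 < β₀ ∧ ∀ β : ℝ, β₀ ≤ β →
      (∃ (R : ℕ) (F : (LinkZ (D + 1) → G) → ℝ), (R : ℝ) * rate D β ≤ C ∧
        IsLocal R F ∧ Smooth F ∧
        (∀ (l : ℕ) [NeZero l], Even l → R < l →
          c ≤ expect l μ β (fun V => F V ^ 2) - expect l μ β F ^ 2 ∧
          expectT l μ β (gradSq B fun U : Link (D + 1) l → G => F (per U)) ≤ C * gb D β) ∧
        ∀ ν : Measure (LinkZ (D + 1) → G), IsInfVol μ β ν →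
          c ≤ ∫ V, F V ^ 2 ∂ν - (∫ V, F V ∂ν) ^ 2 ∧ ∫ V, gradSq B F V ∂ν ≤ C * gb D β) ∧
      (∀ (l : ℕ) [NeZero l], Even l → C < l * rate D β → ∀ lam : ℝ,
        Poincare (D + 1) l μ B β lam → lam ≤ C * gb D β) ∧
      (∀ ν : Measure (LinkZ (D + 1) → G), IsInfVol μ β ν → ∀ lam : ℝ, PoincareZ ν B lam →
        lam ≤ C * gb D β) ∧
      ∃ ν : Measure (LinkZ (D + 1) → G), IsInfVol μ β ν := by
  have : CompactSpace G := by
    have h1 : IsCompact (G : Set (UU N)) := hG.isCompact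
    exact isCompact_iff_compactSpace.1 h1
  have h00 : SecondCountableTopology (UU N) := TopologicalSpace.Subtype.secondCountableTopology _
  have : SecondCountableTopology G := TopologicalSpace.Subtype.secondCountableTopology _
  obtain ⟨e, rfl⟩ : ∃ e, D = e + 2 := ⟨D - 2, by omega⟩
  have hN : 1 ≤ N := by
    rcases Nat.eq_zero_or_pos N with h | h
    · subst h
      have h1 := B.orth ⟨0, hn⟩ ⟨0, hn⟩
      rw [if_pos rfl] at h1
      have h2 : trace ((B.X ⟨0, hn⟩)ᴴ * B.X ⟨0, hn⟩) = 0 := by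
        unfold Matrix.trace
        exact Finset.sum_empty
      rw [h2] at h1
      norm_num at h1
    · exact h
  obtain ⟨C', c, β₀, hC', hc, hβ₀, hmain⟩ := finite_part μ B hG hn hN e
  obtain ⟨C, hC⟩ : ∃ C : ℝ, C = C' + C' / c := ⟨_, rfl⟩
  have hC'c : 0 < C' / c := by positivity
  have hC1 : C' ≤ C := by rw [hC]; linarith
  have hC2 : C' / c ≤ C := by rw [hC]; linarith
  refine ⟨C, c, β₀, by rw [hC]; positivity, hc, by linarith, fun β hβ => ?_⟩
  have hβ3 : 3 ≤ β := hβ₀.trans hβ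
  have hgb := gb_eq (e := e) hβ3
  obtain ⟨hx, -⟩ := rate_pow (e := e) hβ3
  have hgb0 : 0 ≤ gb (e + 2) β := by
    rw [← hgb]
    have : 0 ≤ β := by linarith
    positivity
  obtain ⟨R, F, H, hR, hF, hFs, hH, hFH, hfin⟩ := hmain β hβ
  rw [hgb] at hfin
  have hCg : C' * gb (e + 2) β ≤ C * gb (e + 2) β := mul_le_mul_of_nonneg_right hC1 hgb0
  -- the comparison
  have hlam : ∀ lam v w : ℝ, c ≤ v → w ≤ C' * gb (e + 2) β → lam * v ≤ w →
      lam ≤ C * gb (e + 2) β := by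
    intro lam v w h1 h2 h3
    rcases le_or_gt lam 0 with h4 | h4
    · exact h4.trans (mul_nonneg (hC'.le.trans hC1) hgb0)
    · have h5 : lam * c ≤ C' * gb (e + 2) β :=
        (mul_le_mul_of_nonneg_left h1 h4.le).trans (h3.trans h2)
      have h6 : lam ≤ C' / c * gb (e + 2) β := by
        rw [div_mul_eq_mul_div, le_div_iff₀ hc]
        exact h5
      exact h6.trans (mul_le_mul_of_nonneg_right hC2 hgb0)
  have hinf : ∀ ν : Measure (LinkZ (e + 2 + 1) → G), IsInfVol μ β ν →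
      c ≤ ∫ V, F V ^ 2 ∂ν - (∫ V, F V ∂ν) ^ 2 ∧
        ∫ V, gradSq B F V ∂ν ≤ C' * gb (e + 2) β := by
    intro ν hν
    obtain ⟨φ, hφ, hlim⟩ := hν.lim
    have hp := hν.prob
    have h1 : Tendsto (fun j => expect (2 * (φ j + 1)) μ β (fun V => F V ^ 2) -
        expect (2 * (φ j + 1)) μ β F ^ 2) atTop
        (𝓝 (∫ V, F V ^ 2 ∂ν - (∫ V, F V ∂ν) ^ 2)) :=
      (hlim _ _ (local_sq hF)).sub ((hlim _ _ hF).pow 2)
    refine ⟨ge_of_tendsto h1 ?_, ?_⟩
    · filter_upwards [hφ.eventually_ge_atTop R] with j hj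
      exact (hfin (2 * (φ j + 1)) (even_two_mul _) (by omega)).2.2.1
    · have h2 : ∫ V, gradSq B F V ∂ν ≤ ∫ V, H V ∂ν :=
        integral_mono_of_nonneg (Eventually.of_forall fun V => gradSq_nonneg B F V)
          (hH.cont.integrable_of_hasCompactSupport (HasCompactSupport.of_compactSpace _))
          (Eventually.of_forall hFH)
      refine h2.trans (le_of_tendsto (hlim _ _ hH) ?_)
      filter_upwards [hφ.eventually_ge_atTop R] with j hj
      exact (hfin (2 * (φ j + 1)) (even_two_mul _) (by omega)).2.2.2.2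
  refine ⟨⟨R, F, hR.trans hC1, hF, hFs, fun l _ hl hRl => ?_, fun ν hν => ?_⟩,
    fun l _ hl hRl lam hP => ?_, fun ν hν lam hP => ?_, exists_infVol μ B β⟩
  · obtain ⟨-, -, h1, h2, -⟩ := hfin l hl hRl
    exact ⟨h1, h2.trans hCg⟩
  · exact ⟨(hinf ν hν).1, (hinf ν hν).2.trans hCg⟩
  · have hRl' : R < l := by
      have h1 : (R : ℝ) * rate (e + 2) β < l * rate (e + 2) β :=
        lt_of_le_of_lt (hR.trans hC1) hRl
      have h2 : (R : ℝ) < l := lt_of_mul_lt_mul_right h1 hx.le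
      exact_mod_cast h2
    obtain ⟨h1, h2, h3, h4, -⟩ := hfin l hl hRl'
    exact hlam lam _ _ h3 h4 (hP (fun U => F (per U)) h1 h2)
  · obtain ⟨h1, h2⟩ := hinf ν hν
    exact hlam lam _ _ h1 h2 (hP R F hF hFs)

end

end Pool.Agent.MG990.L681.Wilson
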